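import Pool.Agent.L0h21.RW.FW

set_option autoImplicit false

/-! # Divisors in dimension three whose tangent cones have simple normal crossings -/

namespace Pool.Agent.L0h21.ME

open MvPolynomial Pool.Agent.L0h21.RW

open Classical in
/-- The surfaces `f j = 0`, `j : J`, have the multiplicities `d j` at `P`, and their tangent cones at
`P` cross normally. In detail: let `f_(j,a)` be the homogeneous component of degree `a` of
`f j (P + x)`. Then `f_(j,a) = 0` for `a < d j`, and `f_(j, d j) = c j ∏_{π k = j} g k` with constants
`c j ≠ 0` and forms `g k`, `k : K`, which are (up to constants) equations of smooth curves in `ℙ ^ 2`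
which cross normally: at each `y ≠ 0` the gradients of the `g k` with `g k (y) = 0` are linearly
independent. There is no condition on the terms of degree greater than `d j`. -/
def HasTangentCones {J K : Type} [Fintype K] (f : J → MvPolynomial (Fin 3) ℂ) (P : Fin 3 → ℂ)
    (d : J → ℕ) (π : K → J) (g : K → MvPolynomial (Fin 3) ℂ) : Prop :=
  (∀ j, ∀ a < d j, homogeneousComponent a (shift P (f j)) = 0) ∧
  (∃ c : J → ℂ, (∀ j, c j ≠ 0) ∧
    ∀ j, homogeneousComponent (d j) (shift P (f j)) = C (c j) * ∏ k with π k = j, g k) ∧
  (∀ k, ∃ e, (g k).IsHomogeneous e) ∧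
  ∀ y, y ≠ 0 → NormalCrossingsAt g y

/-- The arc `t ↦ P + t y + t ^ 2 β(t)`. -/
noncomputable def arc (P y : Fin 3 → ℂ) (β : Fin 3 → Polynomial ℂ) (v : Fin 3) : Polynomial ℂ :=
  Polynomial.C (P v) + Polynomial.C (y v) * Polynomial.X + Polynomial.X ^ 2 * β v

/-- `y` represents a singular point of the tangent cone at `P` of the surface `f = 0` of multiplicity
`d` at `P` (a point of `ℙ ^ 2` at which the component of degree `d` of `f(P + x)` and its partial
derivatives vanish), and `k ≥ 1` is the order of contact there: there is an arc
`a(t) = P + t y + t ^ 2 β(t)`, with `β i = 0` for an index `i` with `y i ≠ 0`, such that the order of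
`f(a(t))` is `d + k`, and the orders of the partial derivatives of `f` along the arc are at least
`d + (k - 1) / 2`.

If the tangent cone has a node at `y`, then this says that the strict transform of the surface under
the blow-up of `P` has at `y` a singularity of type `A_(k-1)` (for `k = 1`, it is smooth at `y`). The
strict transform is given by `h(t, u) = t ^ (-d) f(P + t (y + u))`, `u i = 0`, near `(t, u) = 0`, and
`h(0, u)` has a nondegenerate critical point at `u = 0`, so there are coordinates `u₁`, `u₂`,
depending on `t`, such that `h = u₁ u₂ + δ(t)`. Here `k` is the order of `δ`: one takes an arc on which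
`u₁` and `u₂` vanish up to a high order; and on an arbitrary arc, if the derivatives of `h`, that is,
`u₁` and `u₂`, are of an order greater than `k / 2`, then `δ` and `h` have the same terms of order at
most `k`. -/
def IsNodeOfType (f : MvPolynomial (Fin 3) ℂ) (P : Fin 3 → ℂ) (d : ℕ) (y : Fin 3 → ℂ) (k : ℕ) :
    Prop :=
  y ≠ 0 ∧ eval y (homogeneousComponent d (shift P f)) = 0 ∧
    (∀ v, eval y (pderiv v (homogeneousComponent d (shift P f))) = 0) ∧ 0 < k ∧
    ∃ (i : Fin 3) (β : Fin 3 → Polynomial ℂ), y i ≠ 0 ∧ β i = 0 ∧
      (∀ n < d + k, (aeval (arc P y β) f).coeff n = 0) ∧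
      (aeval (arc P y β) f).coeff (d + k) ≠ 0 ∧
      ∀ v n, 2 * n + 1 < 2 * d + k → (aeval (arc P y β) (pderiv v f)).coeff n = 0

end Pool.Agent.L0h21.ME
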