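import Pool.Agent.L0h21.RW.FW

set_option autoImplicit false

/-! # Divisors whose tangent cones have simple normal crossings -/

namespace Pool.Agent.L0h21.ME

open MvPolynomial Pool.Agent.L0h21.RW

open Classical in
/-- The hypersurfaces `f j = 0`, `j : J`, have the multiplicities `d j` at `P`, and their tangent cones
at `P` cross normally. In detail: let `f_(j,a)` be the homogeneous component of degree `a` of
`f j (P + x)`. Then `f_(j,a) = 0` for `a < d j`, and `f_(j, d j) = c j ∏_{π k = j} g k` with constants
`c j ≠ 0` and forms `g k`, `k : K`, such that at each `y ≠ 0` the gradients of the `g k` with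
`g k (y) = 0` are linearly independent. There is no condition on the terms of degree greater than
`d j`. -/
def HasCrossingCones {V J K : Type} [Fintype K] (f : J → MvPolynomial V ℂ) (P : V → ℂ)
    (d : J → ℕ) (π : K → J) (g : K → MvPolynomial V ℂ) : Prop :=
  (∀ j, ∀ a < d j, homogeneousComponent a (shift P (f j)) = 0) ∧
  (∃ c : J → ℂ, (∀ j, c j ≠ 0) ∧
    ∀ j, homogeneousComponent (d j) (shift P (f j)) = C (c j) * ∏ k with π k = j, g k) ∧
  (∀ k, ∃ e, (g k).IsHomogeneous e) ∧
  ∀ y, y ≠ 0 → NormalCrossingsAt g y

/-- At the point `y` of the projective space (`y ≠ 0`), of dimension one less than the number of the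
variables, the maximal possible number of the `g k` vanish, all of them are components of the tangent
cone of `f j`, and the component of degree `d j + 1` of `f j (P + x)` does not vanish there. -/
def IsDeepPoint {V J K : Type} [Fintype V] (f : J → MvPolynomial V ℂ) (P : V → ℂ) (d : J → ℕ)
    (π : K → J) (g : K → MvPolynomial V ℂ) (j : J) (y : V → ℂ) : Prop :=
  y ≠ 0 ∧ (∀ k, eval y (g k) = 0 → π k = j) ∧
    Nat.card {k : K // eval y (g k) = 0} + 1 = Fintype.card V ∧
    eval y (homogeneousComponent (d j + 1) (shift P (f j))) ≠ 0

end Pool.Agent.L0h21.ME
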