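import Pool.Agent.L0h21.MD.S7

/-! Initial forms for the weights `(2, k + 2, …, k + 2)`. -/

set_option autoImplicit false
set_option linter.unusedSectionVars false

namespace Pool.Agent.L0h21.ME

open MvPolynomial Pool.Agent.L0h21.RW Pool.Agent.L0h21.MD
open Pool.Agent.L0h21.SN hiding lin

variable {V : Type} [Fintype V] [DecidableEq V]

/-- The weights. -/
def wk (k : ℕ) (i : V) (v : V) : ℕ := if v = i then 2 else k + 2

theorem wk_eq (k : ℕ) (i : V) (m : V →₀ ℕ) :
    Finsupp.weight (wk k i) m + k * m i = (k + 2) * Finsupp.degree m := by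
  rw [Finsupp.weight_apply, Finsupp.sum_fintype _ _ (by simp), deg_eq, Finset.mul_sum,
    ← Finset.sum_erase_add _ _ (Finset.mem_univ i)]
  have h1 : ∑ v, (k + 2) * m v = ∑ v ∈ Finset.univ.erase i, (k + 2) * m v + (k + 2) * m i :=
    (Finset.sum_erase_add _ _ (Finset.mem_univ i)).symm
  rw [h1, Finset.sum_congr rfl fun v hv => by
    rw [wk, if_neg (Finset.ne_of_mem_erase hv), smul_eq_mul, mul_comm]]
  rw [wk, if_pos rfl, smul_eq_mul]
  ring

/-- The weight is at least twice the degree. -/
theorem wk_ge (k : ℕ) (i : V) (m : V →₀ ℕ) : 2 * Finsupp.degree m ≤ Finsupp.weight (wk k i) m := by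
  have h1 := wk_eq k i m
  have h2 := Nat.mul_le_mul_left k (le_deg i m)
  nlinarith

/-- The weight in terms of the transversal degree. -/
theorem wk_ge2 (k : ℕ) (i : V) (m : V →₀ ℕ) (h : m i + 2 ≤ Finsupp.degree m) :
    2 * Finsupp.degree m + 2 * k ≤ Finsupp.weight (wk k i) m := by
  have h1 := wk_eq k i m
  have h2 := Nat.mul_le_mul_left k h
  nlinarith

/-- The low form of a form. -/
theorem low0 {k : ℕ} (hk : 0 < k) {G : MvPolynomial V ℂ} {e : ℕ} (h : G.IsHomogeneous e) (i : V) :
    LowC (wk k i) (2 * e) G (C (eval (Pi.single i 1) G) * X i ^ e) := by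
  have h1 : OrdGE (wk k i) (2 * e) G := by
    rw [ordGE_iff]
    intro m hm
    have h4 := hom_deg h hm
    rw [← h4]
    exact wk_ge k i m
  refine ⟨h1, ?_⟩
  ext m
  rw [coeff_weightedHomogeneousComponent, eval_single h, coeff_C_mul, coeff_X_pow]
  by_cases hm : Finsupp.single i e = m
  · subst hm
    rw [if_pos rfl, mul_one, if_pos]
    rw [Finsupp.weight_single, wk, if_pos rfl, smul_eq_mul, mul_comm]
  · rw [if_neg hm, mul_zero]
    split_ifs with h2
    · by_contra h3
      apply hm
      have h4 := wk_eq k i m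
      have h5 := hom_deg h h3
      have h6 := le_deg i m
      have h7 : k * m i = k * Finsupp.degree m := by
        rw [h2, ← h5] at h4
        have h8 : (k + 2) * Finsupp.degree m = k * Finsupp.degree m + 2 * Finsupp.degree m := by ring
        omega
      have h9 := eq_single i m (Nat.eq_of_mul_eq_mul_left hk h7)
      rw [h5] at h9
      exact h9.symm
    · rfl

/-- The low form of a form which vanishes at the point. -/
theorem low1 {k : ℕ} (hk : 0 < k) {G : MvPolynomial V ℂ} {e : ℕ} (h : G.IsHomogeneous (e + 1)) (i : V)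
    (h0 : eval (Pi.single i 1) G = 0) :
    LowC (wk k i) (2 * e + (k + 2)) G
      (X i ^ e * ∑ v ∈ Finset.univ.erase i, C (eval (Pi.single i 1) (pderiv v G)) * X v) := by
  have hlt : ∀ m : V →₀ ℕ, coeff m G ≠ 0 → m i ≤ e := by
    intro m hm
    have h1 := le_deg i m
    have h2 := hom_deg h hm
    by_contra hlt
    have h3 : m i = Finsupp.degree m := by omega
    have h4 := eq_single i m h3
    rw [h2] at h4
    rw [eval_single h, ← h4] at h0
    exact hm h0
  refine ⟨?_, ?_⟩
  · rw [ordGE_iff]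
    intro m hm
    have h1 := wk_eq k i m
    have h2 := hom_deg h hm
    have h3 := Nat.mul_le_mul_left k (hlt m hm)
    rw [h2] at h1
    nlinarith
  · set G' := weightedHomogeneousComponent (wk k i) (2 * e + (k + 2)) G with hG'
    have h2 : IsWeightedHomogeneous (fun v => if v = i then 0 else 1) G' 1 := by
      intro m hm
      rw [hG', coeff_weightedHomogeneousComponent] at hm
      have h3 : Finsupp.weight (wk k i) m = 2 * e + (k + 2) := by
        by_contra h4
        rw [if_neg h4] at hm
        exact hm rfl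
      rw [if_pos h3] at hm
      have h4 := hom_deg h hm
      have h5 := wk_eq k i m
      have h7 : k * m i = k * e := by
        rw [h3, h4] at h5
        have h8 : (k + 2) * (e + 1) = k * e + (2 * e + (k + 2)) := by ring
        omega
      have h9 := Nat.eq_of_mul_eq_mul_left hk h7
      rw [Finsupp.weight_apply, Finsupp.sum_fintype _ _ (by simp),
        ← Finset.sum_erase_add _ _ (Finset.mem_univ i), if_pos rfl, smul_zero, add_zero]
      rw [Finset.sum_congr rfl fun v hv => by
        rw [if_neg (Finset.ne_of_mem_erase hv), smul_eq_mul, mul_one]]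
      have h6 := deg_eq m
      rw [← Finset.sum_erase_add _ _ (Finset.mem_univ i)] at h6
      change ∑ x ∈ Finset.univ.erase i, m x = 1
      omega
    have h3 := h2.sum_weight_X_mul_pderiv
    rw [one_nsmul, ← Finset.sum_erase_add _ _ (Finset.mem_univ i), if_pos rfl, zero_nsmul,
      add_zero] at h3
    rw [← h3, Finset.mul_sum]
    refine Finset.sum_congr rfl fun v hv => ?_
    rw [if_neg (Finset.ne_of_mem_erase hv), one_nsmul]
    have h4 := whc_pderiv (wk k i) v (2 * e) G
    rw [wk, if_neg (Finset.ne_of_mem_erase hv)] at h4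
    have h5 : (pderiv v G).IsHomogeneous e := by
      have := h.pderiv (i := v)
      rwa [Nat.add_sub_cancel] at this
    rw [(low0 hk h5 i).2] at h4
    rw [← h4]
    ring

/-- The low form of the tangent cone at a node. -/
theorem low_coneT {K : Type} [Fintype K] [DecidableEq K] {q : ℕ} (hq : 0 < q) (y : V → ℂ) (i : V)
    (g : K → MvPolynomial V ℂ) (e : K → ℕ)
    (hg : ∀ j, (g j).IsHomogeneous (e j)) (c : ℂ) (U : Finset K) (a b : K) (hab : a ≠ b)
    (haU : a ∈ U) (hbU : b ∈ U)
    (ha : eval y (g a) = 0) (hb : eval y (g b) = 0) (ea eb : ℕ) (hea : e a = ea + 1)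
    (heb : e b = eb + 1) (d : ℕ) (hd : d = ∑ j ∈ U, e j) :
    2 ≤ d ∧ LowC (wk q i) (2 * d + 2 * q) (aeval (phi y i) (C c * ∏ j ∈ U, g j))
      (X i ^ (d - 2) * (C (c * ∏ j ∈ (U.erase a).erase b, eval y (g j)) *
        (lin y i (g a) * lin y i (g b)))) := by
  classical
  set T := (U.erase a).erase b with hT
  have hbT : b ∈ U.erase a := Finset.mem_erase.2 ⟨hab.symm, hbU⟩
  have hsum : ∑ j ∈ U, e j = ∑ j ∈ T, e j + (eb + 1) + (ea + 1) := by
    rw [hT, ← heb, ← hea, Finset.sum_erase_add _ _ hbT, Finset.sum_erase_add _ _ haU]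
  have hprod : ∏ j ∈ U, g j = (∏ j ∈ T, g j) * g b * g a := by
    rw [hT, Finset.prod_erase_mul _ _ hbT, Finset.prod_erase_mul _ _ haU]
  have h1 : LowC (wk q i) (∑ j ∈ T, 2 * e j) (∏ j ∈ T, aeval (phi y i) (g j))
      (∏ j ∈ T, (C (eval y (g j)) * X i ^ e j)) := by
    refine LowC.prod T fun j _ => ?_
    have := low0 hq (aphi_hom y i (hg j)) i
    rwa [aphi_eval] at this
  have h2 : ∀ (k : K) (n : ℕ), e k = n + 1 → eval y (g k) = 0 →
      LowC (wk q i) (2 * n + (q + 2)) (aeval (phi y i) (g k)) (X i ^ n * lin y i (g k)) := by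
    intro k n hn hk
    have h3 := aphi_hom y i (hg k)
    rw [hn] at h3
    have h4 := low1 hq h3 i (by rw [aphi_eval, hk])
    have h5 : ∑ v ∈ Finset.univ.erase i, C (eval (Pi.single i 1)
        (pderiv v (aeval (phi y i) (g k)))) * X v = lin y i (g k) := by
      unfold lin
      refine Finset.sum_congr rfl fun v hv => ?_
      rw [aphi_pderiv y i v (Finset.ne_of_mem_erase hv)]
    rwa [h5] at h4
  have h3 := ((LowC.C (w := wk q i) c).mul ((h1.mul (h2 b eb heb hb)).mul (h2 a ea hea ha)))
  refine ⟨by omega, ?_⟩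
  have e1 : 0 + (∑ j ∈ T, 2 * e j + (2 * eb + (q + 2)) + (2 * ea + (q + 2))) = 2 * d + 2 * q := by
    rw [← Finset.mul_sum]
    omega
  rw [e1] at h3
  have e2 : aeval (phi y i) (C c * ∏ j ∈ U, g j) = C c * ((∏ j ∈ T, aeval (phi y i) (g j)) *
      aeval (phi y i) (g b) * aeval (phi y i) (g a)) := by
    rw [hprod, map_mul, map_mul, map_mul, map_prod, aeval_C, algebraMap_eq]
  have e3 : X i ^ (d - 2) * (C (c * ∏ j ∈ T, eval y (g j)) * (lin y i (g a) * lin y i (g b))) =
      C c * ((∏ j ∈ T, (C (eval y (g j)) * X i ^ e j)) * (X i ^ eb * lin y i (g b)) *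
        (X i ^ ea * lin y i (g a))) := by
    have e4 : d - 2 = ∑ j ∈ T, e j + eb + ea := by omega
    have e5 : (C (c * ∏ j ∈ T, eval y (g j)) : MvPolynomial V ℂ) =
        C c * ∏ j ∈ T, C (eval y (g j)) := by
      rw [C_mul]
      congr 1
      exact map_prod C _ _
    rw [Finset.prod_mul_distrib, Finset.prod_pow_eq_pow_sum, e5, e4, pow_add, pow_add]
    ring
  rw [e2, e3]
  exact h3

end Pool.Agent.L0h21.ME
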