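import Pool.Agent.L0h21.ME.T1

/-! Coordinates along an arc. -/

set_option autoImplicit false
set_option linter.unusedSectionVars false

namespace Pool.Agent.L0h21.ME

open MvPolynomial Pool.Agent.L0h21.RW Pool.Agent.L0h21.MD
open Pool.Agent.L0h21.SN hiding lin

variable {V : Type} [Fintype V] [DecidableEq V]

/-- The terms of higher order. -/
noncomputable def tay (i : V) (β : V → Polynomial ℂ) (v : V) : MvPolynomial V ℂ :=
  if v = i then 0 else X i ^ 2 * Polynomial.aeval (X i : MvPolynomial V ℂ) (β v)

/-- The coordinates without the translation. -/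
noncomputable def theta (y : V → ℂ) (i : V) (β : V → Polynomial ℂ) (v : V) : MvPolynomial V ℂ :=
  phi y i v + tay i β v

/-- The change of coordinates. -/
noncomputable def affT (P y : V → ℂ) (i : V) (β : V → Polynomial ℂ) (v : V) : MvPolynomial V ℂ :=
  C (P v) + theta y i β v

/-- The parameter. -/
noncomputable def zz (P y : V → ℂ) (i : V) : MvPolynomial V ℂ := C (y i)⁻¹ * (X i - C (P i))

/-- The inverse. -/
noncomputable def affTI (P y : V → ℂ) (i : V) (β : V → Polynomial ℂ) (v : V) : MvPolynomial V ℂ :=
  if v = i then zz P y i else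
    X v - C (P v) - C (y v) * zz P y i - zz P y i ^ 2 * Polynomial.aeval (zz P y i) (β v)

theorem isAut_affT (P y : V → ℂ) (i : V) (β : V → Polynomial ℂ) (hy : y i ≠ 0) :
    IsAut (affT P y i β) (affTI P y i β) := by
  have h1 : (C (y i) * C (y i)⁻¹ : MvPolynomial V ℂ) = 1 := by
    rw [← C_mul, mul_inv_cancel₀ hy, C_1]
  have hi : affT P y i β i = C (P i) + C (y i) * X i := by
    unfold affT theta phi tay
    rw [if_pos rfl, if_pos rfl, add_zero]
  have hz : aeval (affT P y i β) (zz P y i) = X i := by
    unfold zz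
    rw [map_mul, map_sub, aeval_C, aeval_C, aeval_X, algebraMap_eq, hi]
    linear_combination (X i) * h1
  have hv : ∀ v, v ≠ i → affT P y i β v = C (P v) + (X v + C (y v) * X i +
      X i ^ 2 * Polynomial.aeval (X i : MvPolynomial V ℂ) (β v)) := by
    intro v hv
    unfold affT theta phi tay
    rw [if_neg hv, if_neg hv]
  constructor
  · intro v
    unfold affTI
    split_ifs with h
    · subst h
      exact hz
    · rw [map_sub, map_sub, map_sub, map_mul, map_mul, map_pow, aeval_C, aeval_C, aeval_X,
        ← Polynomial.aeval_algHom_apply, hz, hv v h, algebraMap_eq]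
      ring
  · intro v
    by_cases h : v = i
    · subst h
      rw [hi, map_add, map_mul, aeval_C, aeval_C, aeval_X, algebraMap_eq, affTI, if_pos rfl, zz]
      linear_combination (X v - C (P v)) * h1
    · rw [hv v h, map_add, map_add, map_add, map_mul, map_mul, map_pow, aeval_C, aeval_C, aeval_X,
        aeval_X, algebraMap_eq, ← Polynomial.aeval_algHom_apply, aeval_X, affTI, affTI, if_pos rfl,
        if_neg h]
      ring

theorem shift_affT (P y : V → ℂ) (i : V) (β : V → Polynomial ℂ) (f : MvPolynomial V ℂ) :
    aeval (affT P y i β) f = aeval (theta y i β) (shift P f) := by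
  unfold shift
  induction f using MvPolynomial.induction_on with
  | C a => simp
  | add p q hp hq => rw [map_add, map_add, map_add, hp, hq]
  | mul_X p v hp =>
    rw [map_mul, map_mul, map_mul, hp, aeval_X, aeval_X, map_add, aeval_C, aeval_X,
      algebraMap_eq, affT]

theorem tay_ord (i : V) (β : V → Polynomial ℂ) (v : V) : OrdGE (fun _ : V => 1) 2 (tay i β v) := by
  unfold tay
  split_ifs
  · exact OrdGE.zero _
  · have h1 : OrdGE (fun _ : V => 1) 2 (X i ^ 2 : MvPolynomial V ℂ) := by
      have h2 : IsWeightedHomogeneous (fun _ : V => 1) (X i ^ 2 : MvPolynomial V ℂ) 2 := by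
        have := (isWeightedHomogeneous_X ℂ (fun _ : V => 1) i).pow 2
        simpa using this
      exact OrdGE.of_hom h2
    have := h1.mul (OrdGE.of_zero (w := fun _ : V => 1) (Polynomial.aeval (X i) (β v)))
    rwa [add_zero] at this

theorem theta_low (y : V → ℂ) (i : V) (β : V → Polynomial ℂ) (v : V) :
    LowC (fun _ : V => 1) 1 (theta y i β v) (phi y i v) := by
  have h1 : IsWeightedHomogeneous (fun _ : V => 1) (phi y i v) 1 := phi_hom y i v
  have h2 := tay_ord i β v
  unfold theta
  refine ⟨(OrdGE.of_hom h1).add (h2.mono (by omega)), ?_⟩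
  rw [map_add, h1.weightedHomogeneousComponent_same, h2 1 (by omega), add_zero]

theorem LowC_sum {ι : Type} {w : V → ℕ} (s : Finset ι) {e : ℕ} {p q : ι → MvPolynomial V ℂ}
    (h : ∀ i ∈ s, LowC w e (p i) (q i)) : LowC w e (∑ i ∈ s, p i) (∑ i ∈ s, q i) :=
  ⟨OrdGE.sum s fun i hi => (h i hi).1, by
    rw [map_sum]
    exact Finset.sum_congr rfl fun i hi => (h i hi).2⟩

/-- The low form of a form in the new coordinates. -/
theorem hom_theta (y : V → ℂ) (i : V) (β : V → Polynomial ℂ) {G : MvPolynomial V ℂ} {e : ℕ}
    (h : G.IsHomogeneous e) :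
    LowC (fun _ : V => 1) e (aeval (theta y i β) G) (aeval (phi y i) G) := by
  rw [aeval_def, aeval_def, eval₂_eq', eval₂_eq']
  refine LowC_sum _ fun m hm => ?_
  have h1 : LowC (fun _ : V => 1) (∑ v, m v * 1) (∏ v, theta y i β v ^ m v)
      (∏ v, phi y i v ^ m v) := LowC.prod _ fun v _ => (theta_low y i β v).pow (m v)
  have h2 := hom_deg h (mem_support_iff.1 hm)
  have h3 : ∑ v, m v * 1 = e := by
    rw [← h2, deg_eq]
    exact Finset.sum_congr rfl fun v _ => mul_one _
  rw [h3] at h1
  have h4 := (LowC.C (w := fun _ : V => 1) (coeff m G)).mul h1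
  rw [zero_add] at h4
  exact h4

/-- High order. -/
theorem theta_ord (y : V → ℂ) (i : V) (β : V → Polynomial ℂ) (K : ℕ) (R : MvPolynomial V ℂ)
    (hR : ∀ m, coeff m R ≠ 0 → K ≤ Finsupp.degree m) :
    OrdGE (fun _ : V => 1) K (aeval (theta y i β) R) := by
  rw [aeval_def, eval₂_eq']
  refine OrdGE.sum _ fun m hm => ?_
  have h1 : LowC (fun _ : V => 1) (∑ v, m v * 1) (∏ v, theta y i β v ^ m v)
      (∏ v, phi y i v ^ m v) := LowC.prod _ fun v _ => (theta_low y i β v).pow (m v)
  have h3 := hR m (mem_support_iff.1 hm)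
  rw [deg_eq] at h3
  refine OrdGE.C_mul (h1.1.mono ?_) _
  refine h3.trans (le_of_eq ?_)
  exact Finset.sum_congr rfl fun v _ => (mul_one _).symm

/-- The low form of `f` for the usual degree. -/
theorem low_theta (P y : V → ℂ) (i : V) (β : V → Polynomial ℂ) (f : MvPolynomial V ℂ) (d : ℕ)
    (hlow : ∀ a < d, homogeneousComponent a (shift P f) = 0) :
    LowC (fun _ : V => 1) d (aeval (affT P y i β) f)
      (aeval (phi y i) (homogeneousComponent d (shift P f))) := by
  rw [shift_affT]
  set S := shift P f with hS
  have h1 := hom_theta y i β (homogeneousComponent_isHomogeneous d S)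
  have h3 : OrdGE (fun _ : V => 1) (d + 1) (aeval (theta y i β) (S - homogeneousComponent d S)) := by
    refine theta_ord y i β (d + 1) _ fun m hm => ?_
    rw [coeff_sub, coeff_homogeneousComponent] at hm
    by_contra hlt
    have h4 : Finsupp.degree m < d ∨ Finsupp.degree m = d := by omega
    rcases h4 with h4 | h4
    · have h5 := congrArg (coeff m) (hlow _ h4)
      rw [coeff_homogeneousComponent, if_pos rfl, coeff_zero] at h5
      rw [h5] at hm
      simp at hm
    · rw [if_pos h4] at hm
      simp at hm
  have h4 : aeval (theta y i β) S = aeval (theta y i β) (homogeneousComponent d S) +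
      aeval (theta y i β) (S - homogeneousComponent d S) := by
    rw [← map_add]
    congr 1
    ring
  rw [h4]
  refine ⟨h1.1.add (h3.mono (by omega)), ?_⟩
  rw [map_add, h1.2, h3 d (by omega), add_zero]

/-- The remainder. -/
theorem rest_deg (P y : V → ℂ) (i : V) (β : V → Polynomial ℂ) (f : MvPolynomial V ℂ) (d : ℕ)
    (hlow : ∀ a < d, homogeneousComponent a (shift P f) = 0) (m : V →₀ ℕ)
    (hm : coeff m (aeval (affT P y i β) f -
      aeval (phi y i) (homogeneousComponent d (shift P f))) ≠ 0) : d + 1 ≤ Finsupp.degree m := by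
  obtain ⟨h1, h2⟩ := low_theta P y i β f d hlow
  have h3 := ord_succ h1
  rw [h2, ordGE_iff] at h3
  have h4 := h3 m hm
  rw [Finsupp.weight_apply, Finsupp.sum_fintype _ _ (by simp)] at h4
  rw [deg_eq]
  simpa using h4

/-- The low form of a component whose tangent cone does not pass through the point. -/
theorem low_other {k : ℕ} (hk : 0 < k) (P y : V → ℂ) (i : V) (β : V → Polynomial ℂ)
    (f : MvPolynomial V ℂ) (d : ℕ)
    (hlow : ∀ a < d, homogeneousComponent a (shift P f) = 0) :
    LowC (wk k i) (2 * d) (aeval (affT P y i β) f)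
      (C (eval y (homogeneousComponent d (shift P f))) * X i ^ d) := by
  have h2 := low0 hk (aphi_hom y i (homogeneousComponent_isHomogeneous d (shift P f))) i
  rw [aphi_eval] at h2
  set A := aeval (phi y i) (homogeneousComponent d (shift P f)) with hA
  have h3 : OrdGE (wk k i) (2 * d + 1) (aeval (affT P y i β) f - A) := by
    rw [ordGE_iff]
    intro m hm
    have h4 := rest_deg P y i β f d hlow m hm
    have h5 := wk_ge k i m
    omega
  have h4 : aeval (affT P y i β) f = A + (aeval (affT P y i β) f - A) := by ring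
  rw [h4]
  refine ⟨h2.1.add (h3.mono (by omega)), ?_⟩
  rw [map_add, h2.2, h3 (2 * d) (by omega), add_zero]

/-- Monomials of transversal degree one. -/
theorem eq_pair (i : V) (m : V →₀ ℕ) (h : m i + 1 = Finsupp.degree m) :
    ∃ v, v ≠ i ∧ m = Finsupp.single i (m i) + Finsupp.single v 1 := by
  have h2 := deg_eq m
  rw [← Finset.sum_erase_add _ _ (Finset.mem_univ i)] at h2
  have h1 : ∑ v ∈ Finset.univ.erase i, m v = 1 := by omega
  obtain ⟨v, hv, hv0⟩ : ∃ v ∈ Finset.univ.erase i, m v ≠ 0 := by
    by_contra hcon
    push Not at hcon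
    rw [Finset.sum_eq_zero hcon] at h1
    omega
  have h3 := Finset.sum_erase_add (Finset.univ.erase i) (fun v => m v) hv
  rw [h1] at h3
  have h4 : ∑ u ∈ (Finset.univ.erase i).erase v, m u = 0 := by omega
  have h5 : m v = 1 := by omega
  refine ⟨v, Finset.ne_of_mem_erase hv, ?_⟩
  have hvi := Finset.ne_of_mem_erase hv
  ext u
  rw [Finsupp.add_apply]
  by_cases hu : u = i
  · subst hu
    rw [Finsupp.single_eq_same, Finsupp.single_eq_of_ne (Ne.symm hvi), add_zero]
  · by_cases hu' : u = v
    · subst hu'
      rw [Finsupp.single_eq_same, Finsupp.single_eq_of_ne hu, zero_add, h5]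
    · rw [Finsupp.single_eq_of_ne hu, Finsupp.single_eq_of_ne hu', add_zero]
      exact Finset.sum_eq_zero_iff.1 h4 u (Finset.mem_erase.2 ⟨hu', Finset.mem_erase.2
        ⟨hu, Finset.mem_univ _⟩⟩)

/-- The low form at a node. -/
theorem low_node {k : ℕ} (hk : 0 < k) (i : V) (F A B : MvPolynomial V ℂ) (d : ℕ) (δ : ℂ)
    (hA : A.IsHomogeneous d) (hAB : LowC (wk k i) (2 * d + 2 * k) A B)
    (hR : ∀ m, coeff m (F - A) ≠ 0 → d + 1 ≤ Finsupp.degree m)
    (h0 : ∀ n < d + k, coeff (Finsupp.single i n) F = 0)
    (h0' : coeff (Finsupp.single i (d + k)) F = δ)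
    (h1 : ∀ v, v ≠ i → ∀ n, 2 * n + 1 < 2 * d + k →
      coeff (Finsupp.single i n + Finsupp.single v 1) F = 0) :
    LowC (wk k i) (2 * d + 2 * k) F (B + C δ * X i ^ (d + k)) := by
  have hRF : ∀ m, coeff m (F - A) ≠ 0 → coeff m F = coeff m (F - A) := by
    intro m hm
    have h2 := hR m hm
    have h3 : coeff m A = 0 := by
      by_contra h3
      have := hom_deg hA h3
      omega
    rw [coeff_sub, h3, sub_zero]
  have key : ∀ m, coeff m (F - A) ≠ 0 → 2 * d + 2 * k < Finsupp.weight (wk k i) m ∨
      (m = Finsupp.single i (m i) ∧ d + k ≤ m i) := by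
    intro m hm
    have h2 := hR m hm
    have h3 := hRF m hm
    have h4 := le_deg i m
    rcases Nat.lt_or_ge (m i + 1) (Finsupp.degree m) with h5 | h5
    · left
      have h6 := wk_ge2 k i m h5
      omega
    · rcases Nat.lt_or_ge (m i) (Finsupp.degree m) with h6 | h6
      · left
        obtain ⟨v, hv, hmv⟩ := eq_pair i m (by omega)
        by_contra hcon
        have h7 := wk_eq k i m
        have h8 : Finsupp.degree m = m i + 1 := by omega
        rw [h8] at h7
        have h9 : (k + 2) * (m i + 1) = k * m i + 2 * m i + k + 2 := by ring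
        have h10 := h1 v hv (m i) (by omega)
        rw [← hmv] at h10
        rw [h3] at h10
        exact hm h10
      · right
        have h7 := eq_single i m (by omega)
        have h8 : m = Finsupp.single i (m i) := by
          conv_lhs => rw [h7]
          congr 1
          omega
        refine ⟨h8, ?_⟩
        by_contra hcon
        have h9 := h0 (m i) (by omega)
        rw [← h8, h3] at h9
        exact hm h9
  have hlow : LowC (wk k i) (2 * d + 2 * k) (F - A) (C δ * X i ^ (d + k)) := by
    have hwt : Finsupp.weight (wk k i) (Finsupp.single i (d + k)) = 2 * d + 2 * k := by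
      rw [Finsupp.weight_single, wk, if_pos rfl, smul_eq_mul]
      ring
    refine ⟨?_, ?_⟩
    · rw [ordGE_iff]
      intro m hm
      rcases key m hm with h | ⟨h, h'⟩
      · omega
      · rw [h, Finsupp.weight_single, wk, if_pos rfl, smul_eq_mul]
        omega
    · ext m
      rw [coeff_weightedHomogeneousComponent, coeff_C_mul, coeff_X_pow]
      by_cases hm : Finsupp.single i (d + k) = m
      · subst hm
        rw [if_pos hwt, if_pos rfl, mul_one, coeff_sub, h0']
        have h3 : coeff (Finsupp.single i (d + k)) A = 0 := by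
          by_contra h3
          have := hom_deg hA h3
          rw [deg_eq, Finset.sum_eq_single i (fun v _ hv => Finsupp.single_eq_of_ne hv) (by simp),
            Finsupp.single_eq_same] at this
          omega
        rw [h3, sub_zero]
      · rw [if_neg hm, mul_zero]
        split_ifs with h2
        · by_contra h3
          rcases key m h3 with h | ⟨h, h'⟩
          · omega
          · apply hm
            rw [h, Finsupp.weight_single, wk, if_pos rfl, smul_eq_mul] at h2
            rw [h]
            congr 1
            omega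
        · rfl
  have h4 : F = A + (F - A) := by ring
  rw [h4]
  refine ⟨hAB.1.add hlow.1, ?_⟩
  rw [map_add, hAB.2, hlow.2]

end Pool.Agent.L0h21.ME
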