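import Pool.Agent.L0h21.ME.T2
import Pool.Agent.L0h21.ME.Def

/-! Coefficients and arcs. -/

set_option autoImplicit false
set_option linter.unusedSectionVars false

namespace Pool.Agent.L0h21.ME

open MvPolynomial Pool.Agent.L0h21.RW Pool.Agent.L0h21.MD
open Pool.Agent.L0h21.SN hiding lin

/-- The restriction to the axis. -/
noncomputable def axis {V : Type} [DecidableEq V] (i : V) (v : V) : Polynomial ℂ :=
  if v = i then Polynomial.X else 0

theorem coeff_axis {V : Type} [Fintype V] [DecidableEq V] (i : V) (G : MvPolynomial V ℂ) (n : ℕ) :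
    (aeval (axis i) G).coeff n = coeff (Finsupp.single i n) G := by
  induction G using MvPolynomial.induction_on' with
  | monomial m a =>
    rw [aeval_monomial, coeff_monomial, Finsupp.prod_fintype _ _ (by simp)]
    by_cases hm : ∃ v, v ≠ i ∧ m v ≠ 0
    · obtain ⟨v, hv, hmv⟩ := hm
      rw [Finset.prod_eq_zero (Finset.mem_univ v) (by rw [axis, if_neg hv, zero_pow hmv]), mul_zero,
        Polynomial.coeff_zero, if_neg]
      rintro rfl
      exact hmv (Finsupp.single_eq_of_ne hv)
    · push Not at hm
      rw [Finset.prod_eq_single i (fun v _ hv => by rw [hm v hv, pow_zero]) (by simp), axis,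
        if_pos rfl]
      have h1 : m = Finsupp.single i (m i) := by
        ext v
        by_cases hv : v = i
        · subst hv
          rw [Finsupp.single_eq_same]
        · rw [Finsupp.single_eq_of_ne hv]
          exact hm v hv
      have h2 : (algebraMap ℂ (Polynomial ℂ)) a = Polynomial.C a := rfl
      rw [h2, Polynomial.coeff_C_mul, Polynomial.coeff_X_pow]
      by_cases hn : n = m i
      · rw [if_pos hn, mul_one, if_pos (by rw [hn]; exact h1)]
      · rw [if_neg hn, mul_zero, if_neg]
        intro h3
        apply hn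
        rw [h3, Finsupp.single_eq_same]
  | add p q hp hq => rw [map_add, Polynomial.coeff_add, coeff_add, hp, hq]

variable (P y : Fin 3 → ℂ) (i : Fin 3) (β : Fin 3 → Polynomial ℂ)

theorem axis_affT (hβ : β i = 0) (f : MvPolynomial (Fin 3) ℂ) :
    aeval (axis i) (aeval (affT P y i β) f) = aeval (arc P y β) f := by
  have h0 : aeval (axis i) (X i : MvPolynomial (Fin 3) ℂ) = Polynomial.X := by
    rw [aeval_X, axis, if_pos rfl]
  have h1 : ∀ v, aeval (axis i) (affT P y i β v) = arc P y β v := by
    intro v
    unfold affT theta phi tay arc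
    by_cases hv : v = i
    · subst hv
      rw [if_pos rfl, if_pos rfl, add_zero, map_add, map_mul, aeval_C, aeval_C, h0, hβ, mul_zero,
        add_zero]
      rfl
    · rw [if_neg hv, if_neg hv, map_add, map_add, map_add, map_mul, map_mul, map_pow, aeval_C,
        aeval_C, h0, aeval_X, axis, if_neg hv, zero_add, ← Polynomial.aeval_algHom_apply, h0,
        Polynomial.aeval_X_left_apply]
      rw [← add_assoc]
      rfl
  have h2 : (aeval (axis i)).comp (aeval (affT P y i β)) = aeval (arc P y β) := by
    refine algHom_ext fun v => ?_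
    rw [AlgHom.comp_apply, aeval_X, aeval_X, h1]
  exact congrArg (fun φ => φ f) h2

theorem pderiv_affT (v : Fin 3) (hv : v ≠ i) (f : MvPolynomial (Fin 3) ℂ) :
    pderiv v (aeval (affT P y i β) f) = aeval (affT P y i β) (pderiv v f) := by
  have h0 : pderiv v (X i : MvPolynomial (Fin 3) ℂ) = 0 := pderiv_X_of_ne (Ne.symm hv)
  have h3 : ∀ q : Polynomial ℂ, pderiv v (Polynomial.aeval (X i : MvPolynomial (Fin 3) ℂ) q) = 0 := by
    intro q
    induction q using Polynomial.induction_on' with
    | add p q hp hq => rw [map_add, map_add, hp, hq, add_zero]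
    | monomial n a =>
      rw [Polynomial.aeval_monomial]
      have h4 : (algebraMap ℂ (MvPolynomial (Fin 3) ℂ)) a = C a := rfl
      rw [h4, pderiv_C_mul, pderiv_pow, h0, mul_zero, mul_zero]
  have h4 : ∀ u, pderiv v (affT P y i β u) = if u = v then 1 else 0 := by
    intro u
    unfold affT theta phi tay
    by_cases hu : u = i
    · subst hu
      rw [if_pos rfl, if_pos rfl, add_zero, map_add, pderiv_C, pderiv_C_mul, h0, mul_zero, add_zero,
        if_neg (Ne.symm hv)]
    · rw [if_neg hu, if_neg hu, map_add, map_add, map_add, pderiv_C, pderiv_C_mul, h0, mul_zero,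
        add_zero, zero_add, Derivation.leibniz, pderiv_pow, h0, h3, mul_zero, smul_zero, smul_zero,
        add_zero, add_zero]
      by_cases huv : u = v
      · subst huv
        rw [pderiv_X_self, if_pos rfl]
      · rw [pderiv_X_of_ne huv, if_neg huv]
  rw [chain_rule, Finset.sum_eq_single v]
  · rw [h4, if_pos rfl, one_mul]
  · intro u _ hu
    rw [h4, if_neg hu, zero_mul]
  · intro h
    exact absurd (Finset.mem_univ _) h

/-- The coefficients of transversal degree zero. -/
theorem coeff_zero_arc (hβ : β i = 0) (f : MvPolynomial (Fin 3) ℂ) (n : ℕ) :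
    coeff (Finsupp.single i n) (aeval (affT P y i β) f) = (aeval (arc P y β) f).coeff n := by
  rw [← coeff_axis, axis_affT P y i β hβ]

/-- The coefficients of transversal degree one. -/
theorem coeff_one_arc (hβ : β i = 0) (f : MvPolynomial (Fin 3) ℂ) (v : Fin 3) (hv : v ≠ i) (n : ℕ) :
    coeff (Finsupp.single i n + Finsupp.single v 1) (aeval (affT P y i β) f) =
      (aeval (arc P y β) (pderiv v f)).coeff n := by
  rw [← axis_affT P y i β hβ, coeff_axis, ← pderiv_affT P y i β v hv, coeff_pderiv,
    Finsupp.single_eq_of_ne hv]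
  simp

end Pool.Agent.L0h21.ME
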