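import Pool.Agent.L0h21.ME.T3

/-! Normal crossings of the initial form, and the crossing divisor. -/

set_option autoImplicit false
set_option linter.unusedSectionVars false

namespace Pool.Agent.L0h21.ME

open MvPolynomial Pool.Agent.L0h21.RW Pool.Agent.L0h21.MD
open Pool.Agent.L0h21.SN hiding lin

variable {V : Type} [Fintype V] [DecidableEq V]

/-- The second factor of the initial form. -/
noncomputable def cubK (q : ℕ) (y : V → ℂ) (i : V) (ga gb : MvPolynomial V ℂ) (κ δ : ℂ) :
    MvPolynomial V ℂ :=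
  C κ * (lin y i ga * lin y i gb) + C δ * X i ^ (q + 2)

theorem cubK_eval (q : ℕ) (y : V → ℂ) (i : V) (ga gb : MvPolynomial V ℂ) (κ δ : ℂ) (x : V → ℂ) :
    eval x (cubK q y i ga gb κ δ) =
      κ * (eval x (lin y i ga) * eval x (lin y i gb)) + δ * x i ^ (q + 2) := by
  unfold cubK
  rw [map_add, map_mul, map_mul, map_mul, eval_C, eval_C, map_pow, eval_X]

theorem cubK_pderiv (q : ℕ) (y : V → ℂ) (i : V) (ga gb : MvPolynomial V ℂ) (κ δ : ℂ) (x : V → ℂ)
    (u : V) (hu : u ≠ i) : eval x (pderiv u (cubK q y i ga gb κ δ)) =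
      κ * (eval x (lin y i ga) * eval y (pderiv u gb) +
        eval x (lin y i gb) * eval y (pderiv u ga)) := by
  unfold cubK
  rw [map_add, pderiv_C_mul, pderiv_C_mul, Derivation.leibniz, lin_pderiv y i ga u hu,
    lin_pderiv y i gb u hu, pderiv_pow, pderiv_X_of_ne (Ne.symm hu), mul_zero, mul_zero, add_zero,
    smul_eq_mul, smul_eq_mul, map_mul, map_add, map_mul, map_mul, eval_C, eval_C, eval_C]

/-- The derivatives vanish at the origin. -/
theorem cubK_zero (q : ℕ) (y : V → ℂ) (i : V) (ga gb : MvPolynomial V ℂ) (κ δ : ℂ) :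
    eval (0 : V → ℂ) (cubK q y i ga gb κ δ) = 0 ∧
      ∀ v, eval (0 : V → ℂ) (pderiv v (cubK q y i ga gb κ δ)) = 0 := by
  have h0 : ∀ g : MvPolynomial V ℂ, eval (0 : V → ℂ) (lin y i g) = 0 := by
    intro g
    rw [lin_eval]
    exact Finset.sum_eq_zero fun v _ => by rw [Pi.zero_apply, mul_zero]
  constructor
  · rw [cubK_eval, h0, h0, Pi.zero_apply, zero_pow (by omega)]
    ring
  · intro v
    by_cases hv : v = i
    · subst hv
      have h2 : ∀ g : MvPolynomial V ℂ, pderiv v (lin y v g) = 0 := by
        intro g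
        unfold lin
        rw [map_sum]
        refine Finset.sum_eq_zero fun u hu => ?_
        rw [pderiv_C_mul, pderiv_X_of_ne (Finset.ne_of_mem_erase hu), mul_zero]
      unfold cubK
      rw [map_add, pderiv_C_mul, pderiv_C_mul, Derivation.leibniz, h2, h2, smul_zero, smul_zero,
        pderiv_pow, pderiv_X_self]
      simp
    · rw [cubK_pderiv q y i ga gb κ δ 0 v hv, h0, h0]
      ring

/-- The two components of the initial form. -/
noncomputable def twoK (q : ℕ) (y : V → ℂ) (i : V) (ga gb : MvPolynomial V ℂ) (κ δ : ℂ) :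
    Bool → MvPolynomial V ℂ
  | false => X i
  | true => cubK q y i ga gb κ δ

/-- **Normal crossings of the initial form.** -/
theorem nc_twoK (q : ℕ) (y : V → ℂ) (i : V) (ga gb : MvPolynomial V ℂ) (κ δ : ℂ) (hκ : κ ≠ 0)
    (hδ : δ ≠ 0)
    (hind : ∀ α β : ℂ, (∀ v, v ≠ i → α * eval y (pderiv v ga) + β * eval y (pderiv v gb) = 0) →
      α = 0 ∧ β = 0)
    (hker : ∀ x : V → ℂ, x i = 0 → eval x (lin y i ga) = 0 → eval x (lin y i gb) = 0 → x = 0)
    (x : V → ℂ) : NormalCrossingsAt (twoK q y i ga gb κ δ) x ↔ x ≠ 0 := by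
  classical
  constructor
  · rintro h rfl
    obtain ⟨h0, h1⟩ := cubK_zero q y i ga gb κ δ
    have h2 := h.ne_zero ⟨true, h0⟩
    exact h2 (funext h1)
  · intro hx
    have key : eval x (twoK q y i ga gb κ δ true) = 0 →
        ∃ v, v ≠ i ∧ eval x (pderiv v (twoK q y i ga gb κ δ true)) ≠ 0 := by
      intro h0
      change eval x (cubK q y i ga gb κ δ) = 0 at h0
      rw [cubK_eval] at h0
      by_contra hcon
      push Not at hcon
      have h1 := hind (κ * eval x (lin y i gb)) (κ * eval x (lin y i ga)) fun v hv => by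
        have h2 : eval x (pderiv v (cubK q y i ga gb κ δ)) = 0 := hcon v hv
        rw [cubK_pderiv q y i ga gb κ δ x v hv] at h2
        linear_combination h2
      have h2 : eval x (lin y i gb) = 0 := (mul_eq_zero.1 h1.1).resolve_left hκ
      have h3 : eval x (lin y i ga) = 0 := (mul_eq_zero.1 h1.2).resolve_left hκ
      rw [h2, mul_zero, mul_zero, zero_add] at h0
      have h4 : x i = 0 := by
        have := (mul_eq_zero.1 h0).resolve_left hδ
        exact (pow_eq_zero_iff (by omega)).1 this
      exact hx (hker x h4 h3 h2)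
    unfold NormalCrossingsAt
    rw [Fintype.linearIndependent_iff]
    intro a ha
    have hcomp : ∀ v, ∑ j : {j : Bool // eval x (twoK q y i ga gb κ δ j) = 0},
        a j * eval x (pderiv v (twoK q y i ga gb κ δ j.1)) = 0 := by
      intro v
      have := congrFun ha v
      rw [Finset.sum_apply] at this
      simpa using this
    have ht : ∀ h : eval x (twoK q y i ga gb κ δ true) = 0, a ⟨true, h⟩ = 0 := by
      intro h
      obtain ⟨v, hv, hv0⟩ := key h
      have h1 := hcomp v
      rw [Finset.sum_eq_single ⟨true, h⟩] at h1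
      · exact (mul_eq_zero.1 h1).resolve_right hv0
      · rintro ⟨j, hj⟩ _ hne
        have hjf : j = false := by
          cases j
          · rfl
          · exact absurd rfl hne
        subst hjf
        have h2 : eval x (pderiv v (twoK q y i ga gb κ δ false)) = 0 := by
          change eval x (pderiv v (X i)) = 0
          rw [pderiv_X_of_ne (Ne.symm hv), map_zero]
        change a ⟨false, hj⟩ * eval x (pderiv v (twoK q y i ga gb κ δ false)) = 0
        rw [h2, mul_zero]
      · intro h3
        exact absurd (Finset.mem_univ _) h3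
    rintro ⟨j, hj⟩
    cases j
    · have h1 := hcomp i
      rw [Finset.sum_eq_single ⟨false, hj⟩] at h1
      · have h2 : eval x (pderiv i (twoK q y i ga gb κ δ false)) = 1 := by
          change eval x (pderiv i (X i)) = 1
          rw [pderiv_X_self, map_one]
        change a ⟨false, hj⟩ * eval x (pderiv i (twoK q y i ga gb κ δ false)) = 0 at h1
        rwa [h2, mul_one] at h1
      · rintro ⟨j, hj'⟩ _ hne
        have hjt : j = true := by
          cases j
          · exact absurd rfl hne
          · rfl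
        subst hjt
        rw [ht hj', zero_mul]
      · intro h3
        exact absurd (Finset.mem_univ _) h3
    · exact ht hj

theorem nc_cubK (q : ℕ) (y : V → ℂ) (i : V) (ga gb : MvPolynomial V ℂ) (κ δ : ℂ) (hκ : κ ≠ 0)
    (hδ : δ ≠ 0)
    (hind : ∀ α β : ℂ, (∀ v, v ≠ i → α * eval y (pderiv v ga) + β * eval y (pderiv v gb) = 0) →
      α = 0 ∧ β = 0)
    (hker : ∀ x : V → ℂ, x i = 0 → eval x (lin y i ga) = 0 → eval x (lin y i gb) = 0 → x = 0)
    (x : V → ℂ) : NormalCrossingsAt (fun _ : Unit => cubK q y i ga gb κ δ) x ↔ x ≠ 0 := by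
  classical
  constructor
  · rintro h rfl
    obtain ⟨h0, h1⟩ := cubK_zero q y i ga gb κ δ
    have h2 := h.ne_zero ⟨(), h0⟩
    exact h2 (funext h1)
  · intro hx
    have h1 := (nc_twoK q y i ga gb κ δ hκ hδ hind hker x).2 hx
    let t : {j : Unit // eval x (cubK q y i ga gb κ δ) = 0} →
        {j : Bool // eval x (twoK q y i ga gb κ δ j) = 0} := fun j => ⟨true, j.2⟩
    have ht : Function.Injective t := fun u v _ => Subtype.ext (Subsingleton.elim _ _)
    exact LinearIndependent.comp h1 t ht

theorem sum_wk (q : ℕ) (i : V) (hV : Fintype.card V = 3) : ∑ v, wk q i v = 2 * (q + 3) := by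
  rw [← Finset.sum_erase_add _ _ (Finset.mem_univ i), Finset.sum_congr rfl fun v hv => by
    rw [wk, if_neg (Finset.ne_of_mem_erase hv)], Finset.sum_const,
    Finset.card_erase_of_mem (Finset.mem_univ i), Finset.card_univ, hV, wk, if_pos rfl, smul_eq_mul]
  ring

/-- The crossing divisor. -/
theorem cross_finalK (hV : Fintype.card V = 3) (q : ℕ) (P y : V → ℂ) (i : V) (hi : y i ≠ 0)
    (β : V → Polynomial ℂ)
    (F ga gb : MvPolynomial V ℂ) (n nz m0 : ℕ) (c κ δ : ℂ) (hc : c ≠ 0) (hκ : κ ≠ 0) (hδ : δ ≠ 0)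
    (hm0 : 0 < m0)
    (hind : ∀ α β : ℂ, (∀ v, v ≠ i → α * eval y (pderiv v ga) + β * eval y (pderiv v gb) = 0) →
      α = 0 ∧ β = 0)
    (hker : ∀ x : V → ℂ, x i = 0 → eval x (lin y i ga) = 0 → eval x (lin y i gb) = 0 → x = 0)
    (hlow : LowC (wk q i) n (shift 0 (aeval (affT P y i β) F))
      (C c * (X i ^ nz * cubK q y i ga gb κ δ ^ m0))) : IsCrossingDivisor F n (2 * (q + 3)) := by
  classical
  have hcub : IsWeightedHomogeneous (wk q i) (cubK q y i ga gb κ δ) (2 * (q + 2)) := by
    have h1 : ∀ p : MvPolynomial V ℂ, IsWeightedHomogeneous (wk q i) (lin y i p) (q + 2) := by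
      intro p
      unfold lin
      refine IsWeightedHomogeneous.sum _ _ _ fun v hv => ?_
      have h2 := (isWeightedHomogeneous_C (wk q i) (eval y (pderiv v p))).mul
        (isWeightedHomogeneous_X ℂ (wk q i) v)
      rwa [zero_add, wk, if_neg (Finset.ne_of_mem_erase hv)] at h2
    unfold cubK
    refine IsWeightedHomogeneous.add ?_ ?_
    · have h2 := (isWeightedHomogeneous_C (wk q i) κ).mul ((h1 ga).mul (h1 gb))
      rwa [zero_add, ← two_mul] at h2
    · have h2 := (isWeightedHomogeneous_C (wk q i) δ).mul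
        ((isWeightedHomogeneous_X ℂ (wk q i) i).pow (q + 2))
      rw [zero_add, wk, if_pos rfl, smul_eq_mul, mul_comm (q + 2) 2] at h2
      exact h2
  have hsum := sum_wk q i hV
  have htwo : ∃ v v', v ≠ v' ∧ 0 < wk q i v ∧ 0 < wk q i v' := by
    obtain ⟨v, v', hv⟩ := Fintype.exists_pair_of_one_lt_card (α := V) (by omega)
    refine ⟨v, v', hv, ?_, ?_⟩ <;> (unfold wk; split_ifs <;> omega)
  have hvars : ∀ v ∈ (1 : MvPolynomial V ℂ).vars, wk q i v = 0 := by
    intro v hv
    rw [← C_1, vars_C] at hv
    exact absurd hv (Finset.notMem_empty v)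
  have hx : ∀ x : V → ℂ, x ≠ 0 ↔ ∃ v, 0 < wk q i v ∧ x v ≠ 0 := by
    intro x
    constructor
    · intro hx
      by_contra hcon
      push Not at hcon
      apply hx
      funext v
      exact hcon v (by unfold wk; split_ifs <;> omega)
    · rintro ⟨v, -, hv⟩ rfl
      exact hv rfl
  rcases Nat.eq_zero_or_pos nz with h0 | h0
  · subst h0
    rw [pow_zero, one_mul] at hlow
    refine ⟨affT P y i β, affTI P y i β, 0, wk q i, Unit, inferInstance,
      fun _ => cubK q y i ga gb κ δ, fun _ => 2 * (q + 2), fun _ => m0, c, 1,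
      isAut_affT P y i β hi, htwo, hsum.symm, fun _ => hcub, fun _ => hm0, hc, ?_, one_ne_zero,
      hvars, fun x _ => ?_⟩
    · rw [Fintype.prod_unique]
      exact hlow
    · rw [nc_cubK q y i ga gb κ δ hκ hδ hind hker x, hx]
  · refine ⟨affT P y i β, affTI P y i β, 0, wk q i, Bool, inferInstance, twoK q y i ga gb κ δ,
      fun j => if j = true then 2 * (q + 2) else 2, fun j => if j = true then m0 else nz, c, 1,
      isAut_affT P y i β hi, htwo, hsum.symm, ?_, ?_, hc, ?_, one_ne_zero, hvars, fun x _ => ?_⟩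
    · intro j
      cases j
      · have := isWeightedHomogeneous_X ℂ (wk q i) i
        rw [wk, if_pos rfl] at this
        exact this
      · exact hcub
    · intro j
      cases j
      · simp only [Bool.false_eq_true, if_false]
        exact h0
      · simp only [if_true]
        exact hm0
    · have h1 : (C c * ∏ j : Bool, twoK q y i ga gb κ δ j ^ (if j = true then m0 else nz) :
          MvPolynomial V ℂ) = C c * (X i ^ nz * cubK q y i ga gb κ δ ^ m0) := by
        rw [Fintype.prod_bool]
        simp only [Bool.false_eq_true, if_false, if_true]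
        congr 1
        exact mul_comm _ _
      rw [h1]
      exact hlow
    · rw [nc_twoK q y i ga gb κ δ hκ hδ hind hker x, hx]

end Pool.Agent.L0h21.ME
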