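import Pool.Agent.L0h21.ME.T4

/-! The divisors over a point at which the tangent cones cross normally. -/

set_option autoImplicit false
set_option linter.unusedSectionVars false

namespace Pool.Agent.L0h21.ME

open MvPolynomial Pool.Agent.L0h21.RW Pool.Agent.L0h21.MD
open Pool.Agent.L0h21.SN hiding lin

variable {J : Type} [Fintype J] {K : Type} [Fintype K]

/-- **The divisors over the singular points of the tangent cones.** -/
theorem cross_two (f : J → MvPolynomial (Fin 3) ℂ) (P : Fin 3 → ℂ) (d : J → ℕ) (π : K → J)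
    (g : K → MvPolynomial (Fin 3) ℂ) (H : HasTangentCones f P d π g) (m : J → ℕ) (hm : ∀ j, 0 < m j) (c : ℂ) (hc : c ≠ 0) (j0 : J)
    (y : Fin 3 → ℂ) (q : ℕ) (hy : IsNodeOfType (f j0) P (d j0) y q) :
    IsCrossingDivisor (C c * ∏ j, f j ^ m j) (2 * (∑ j, m j * d j + q * m j0)) (2 * (q + 3)) := by
  classical
  obtain ⟨Hlow, ⟨cc, hcc, hcone⟩, hg', hnc⟩ := H
  choose e hg using hg'
  obtain ⟨hy0, hv0, hgr0, hq, i, β, hi, hβ, ho, ho', hgrad⟩ := hy
  have hcone' : ∀ j, homogeneousComponent (d j) (shift P (f j)) =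
      C (cc j) * ∏ k ∈ Finset.univ.filter (fun k => π k = j), g k := by
    intro j
    rw [hcone j]
  have hne := g_ne g hnc
  obtain ⟨a, b, hab, haU, hbU, ha, hb, hother⟩ := two_compT (Fintype.card_fin 3) g e hg (cc j0)
    (hcc j0) _ _ (hcone' j0) y hy0 (hnc y hy0) hv0 hgr0
  have hpos : ∀ j, eval y (g j) = 0 → ∃ n, e j = n + 1 := by
    intro j hj
    rcases Nat.eq_zero_or_pos (e j) with h0 | h0
    · exfalso
      have h1 := hg j
      rw [h0] at h1
      have h2 : g j = C (coeff 0 (g j)) := totalDegree_eq_zero_iff_eq_C.1 (by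
        have := h1.totalDegree_le
        omega)
      rw [h2, eval_C] at hj
      have h3 := (hnc y hy0).ne_zero ⟨j, by rw [h2, eval_C]; exact hj⟩
      apply h3
      funext v
      change eval y (pderiv v (g j)) = 0
      rw [h2, pderiv_C, map_zero]
    · exact ⟨e j - 1, by omega⟩
  obtain ⟨ea, hea⟩ := hpos a ha
  obtain ⟨eb, heb⟩ := hpos b hb
  obtain ⟨hind, hker⟩ := node_indep (Fintype.card_fin 3) y g e hg (hnc y hy0) a b hab ha hb i hi
  have hd0 := degs P (f j0) (d j0) g e hg (cc j0) (hcc j0) _ (hcone' j0) hne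
  set κ := cc j0 * ∏ j ∈ ((Finset.univ.filter (fun k => π k = j0)).erase a).erase b, eval y (g j)
    with hκ
  have hκ0 : κ ≠ 0 := by
    refine mul_ne_zero (hcc j0) (Finset.prod_ne_zero_iff.2 fun j hj => ?_)
    have h1 := Finset.mem_erase.1 hj
    exact hother j (Finset.ne_of_mem_erase h1.2) h1.1
  set δ := (aeval (arc P y β) (f j0)).coeff (d j0 + q) with hδ
  obtain ⟨h2d, hlc⟩ := low_coneT hq y i g e hg (cc j0) _ a b hab haU hbU ha hb ea eb hea heb
    (d j0) hd0
  rw [← hcone' j0, ← hκ] at hlc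
  have hl0 := low_node hq i (aeval (affT P y i β) (f j0)) _ _ (d j0) δ
    (aphi_hom y i (homogeneousComponent_isHomogeneous (d j0) (shift P (f j0)))) hlc
    (rest_deg P y i β (f j0) (d j0) (Hlow j0))
    (fun n hn => by rw [coeff_zero_arc P y i β hβ]; exact ho n hn)
    (by rw [coeff_zero_arc P y i β hβ])
    (fun v hv n hn => by rw [coeff_one_arc P y i β hβ _ v hv]; exact hgrad v n hn)
  have hl1 : X i ^ (d j0 - 2) * (C κ * (lin y i (g a) * lin y i (g b))) +
      C δ * X i ^ (d j0 + q) = X i ^ (d j0 - 2) * cubK q y i (g a) (g b) κ δ := by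
    unfold cubK
    have h6 : (X i : MvPolynomial (Fin 3) ℂ) ^ (d j0 + q) = X i ^ (d j0 - 2) * X i ^ (q + 2) := by
      rw [← pow_add]
      congr 1
      omega
    rw [h6]
    ring
  rw [hl1] at hl0
  set G : J → ℂ := fun l => eval y (homogeneousComponent (d l) (shift P (f l))) with hG
  have hG0 : ∀ l, l ≠ j0 → G l ≠ 0 := by
    intro l hl
    change eval y _ ≠ 0
    rw [hcone' l, map_mul, eval_C, map_prod]
    refine mul_ne_zero (hcc l) (Finset.prod_ne_zero_iff.2 fun k hk => ?_)
    have hk' := (Finset.mem_filter.1 hk).2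
    refine hother k ?_ ?_
    · rintro rfl
      exact hl (hk'.symm.trans (Finset.mem_filter.1 haU).2)
    · rintro rfl
      exact hl (hk'.symm.trans (Finset.mem_filter.1 hbU).2)
  have hrest : LowC (wk q i) (∑ l ∈ Finset.univ.erase j0, m l * (2 * d l))
      (∏ l ∈ Finset.univ.erase j0, (aeval (affT P y i β) (f l)) ^ m l)
      (∏ l ∈ Finset.univ.erase j0, (C (G l) * X i ^ d l) ^ m l) :=
    LowC.prod _ fun l _ => (low_other hq P y i β (f l) (d l) (Hlow l)).pow (m l)
  have hall := (LowC.C (w := wk q i) c).mul ((hl0.pow (m j0)).mul hrest)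
  have hsh : ∀ p : MvPolynomial (Fin 3) ℂ, shift (0 : Fin 3 → ℂ) p = p := by
    intro p
    unfold shift
    have : (fun v => C ((0 : Fin 3 → ℂ) v) + X v : Fin 3 → MvPolynomial (Fin 3) ℂ) = X := by
      funext v
      rw [Pi.zero_apply, C_0, zero_add]
    rw [this, aeval_X_left_apply]
  refine cross_finalK (Fintype.card_fin 3) q P y i hi β _ (g a) (g b) _
    ((d j0 - 2) * m j0 + ∑ l ∈ Finset.univ.erase j0, m l * d l) (m j0)
    (c * ∏ l ∈ Finset.univ.erase j0, G l ^ m l) κ δ ?_ hκ0 ho' (hm j0) hind hker ?_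
  · refine mul_ne_zero hc (Finset.prod_ne_zero_iff.2 fun l hl => ?_)
    exact pow_ne_zero _ (hG0 l (Finset.ne_of_mem_erase hl))
  · have e1 : 0 + (m j0 * (2 * d j0 + 2 * q) + ∑ l ∈ Finset.univ.erase j0, m l * (2 * d l)) =
        2 * (∑ j, m j * d j + q * m j0) := by
      rw [← Finset.sum_erase_add _ _ (Finset.mem_univ j0), zero_add, Finset.sum_congr rfl
        fun l _ => show m l * (2 * d l) = 2 * (m l * d l) by ring, ← Finset.mul_sum]
      ring
    have e2 : shift 0 (aeval (affT P y i β) (C c * ∏ j, f j ^ m j)) =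
        C c * (aeval (affT P y i β) (f j0) ^ m j0 *
          ∏ l ∈ Finset.univ.erase j0, (aeval (affT P y i β) (f l)) ^ m l) := by
      simp only [hsh]
      rw [← Finset.mul_prod_erase _ _ (Finset.mem_univ j0), map_mul, map_mul, aeval_C,
        algebraMap_eq, map_pow, map_prod]
      simp only [map_pow]
    have e3 : C (c * ∏ l ∈ Finset.univ.erase j0, G l ^ m l) *
        (X i ^ ((d j0 - 2) * m j0 + ∑ l ∈ Finset.univ.erase j0, m l * d l) *
          cubK q y i (g a) (g b) κ δ ^ m j0) =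
        C c * ((X i ^ (d j0 - 2) * cubK q y i (g a) (g b) κ δ) ^ m j0 *
          ∏ l ∈ Finset.univ.erase j0, (C (G l) * X i ^ d l) ^ m l) := by
      have e4 : (C (∏ l ∈ Finset.univ.erase j0, G l ^ m l) : MvPolynomial (Fin 3) ℂ) =
          ∏ l ∈ Finset.univ.erase j0, C (G l) ^ m l := by
        rw [← Finset.prod_congr rfl fun l _ => C_pow (G l) (m l)]
        exact map_prod C _ _
      simp only [mul_pow]
      rw [Finset.prod_mul_distrib, C_mul, e4, pow_add, ← pow_mul, ← Finset.prod_pow_eq_pow_sum,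
        Finset.prod_congr rfl fun l _ => show (X i : MvPolynomial (Fin 3) ℂ) ^ (m l * d l) =
          (X i ^ d l) ^ m l by rw [← pow_mul, mul_comm]]
      ring
    rw [e1, ← e2, ← e3] at hall
    exact hall

/-- **The first divisor.** -/
theorem cross_one (f : J → MvPolynomial (Fin 3) ℂ) (P : Fin 3 → ℂ) (d : J → ℕ) (π : K → J)
    (g : K → MvPolynomial (Fin 3) ℂ) (H : HasTangentCones f P d π g) (m : J → ℕ)
    (hm : ∀ j, 0 < m j) (c : ℂ) (hc : c ≠ 0) (h0 : ¬ NormalCrossingsAt g 0) :
    IsCrossingDivisor (C c * ∏ j, f j ^ m j) (∑ j, m j * d j) 3 := by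
  classical
  obtain ⟨Hlow, ⟨cc, hcc, hcone⟩, hg', hnc⟩ := H
  choose e hg using hg'
  have hcone' : ∀ j, homogeneousComponent (d j) (shift P (f j)) =
      C (cc j) * ∏ k ∈ Finset.univ.filter (fun k => π k = j), g k := by
    intro j
    rw [hcone j]
  have hX : IsAut (X : Fin 3 → MvPolynomial (Fin 3) ℂ) X :=
    ⟨fun v => by rw [aeval_X], fun v => by rw [aeval_X]⟩
  have hone : ∀ v ∈ (1 : MvPolynomial (Fin 3) ℂ).vars, (fun _ : Fin 3 => 1) v = 0 := by
    intro v hv
    rw [← C_1, vars_C] at hv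
    exact absurd hv (Finset.notMem_empty v)
  have hl : ∀ j, LowC (fun _ : Fin 3 => 1) (d j) (shift P (f j))
      (C (cc j) * ∏ k ∈ Finset.univ.filter (fun k => π k = j), g k) :=
    fun j => ⟨Hlow j, hcone' j⟩
  have hall := (LowC.C (w := fun _ : Fin 3 => 1) c).mul (LowC.prod Finset.univ
    fun j _ => (hl j).pow (m j))
  refine ⟨X, X, P, fun _ => 1, K, inferInstance, g, e, fun k => m (π k), c * ∏ j, cc j ^ m j, 1, hX,
    ⟨0, 1, by decide, one_pos, one_pos⟩, by simp, fun j => hg j, fun _ => hm _,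
    mul_ne_zero hc (Finset.prod_ne_zero_iff.2 fun j _ => pow_ne_zero _ (hcc j)), ?_, one_ne_zero,
    hone, ?_⟩
  · have e1 : shift P (aeval X (C c * ∏ j, f j ^ m j)) = C c * ∏ j, shift P (f j) ^ m j := by
      rw [aeval_X_left_apply]
      unfold shift
      rw [map_mul, map_prod, aeval_C, algebraMap_eq]
      simp only [map_pow]
    have e2 : C (c * ∏ j, cc j ^ m j) * ∏ k, g k ^ m (π k) =
        C c * ∏ j, (C (cc j) * ∏ k ∈ Finset.univ.filter (fun k => π k = j), g k) ^ m j := by
      have e3 : (C (∏ j, cc j ^ m j) : MvPolynomial (Fin 3) ℂ) = ∏ j, C (cc j) ^ m j := by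
        rw [← Finset.prod_congr rfl fun l _ => C_pow (cc l) (m l)]
        exact map_prod C _ _
      simp only [mul_pow]
      rw [Finset.prod_mul_distrib, C_mul, e3, mul_assoc]
      congr 2
      rw [← Finset.prod_fiberwise Finset.univ π (fun k => g k ^ m (π k))]
      refine Finset.prod_congr rfl fun j _ => ?_
      rw [← Finset.prod_pow]
      refine Finset.prod_congr rfl fun k hk => ?_
      rw [(Finset.mem_filter.1 hk).2]
    rw [e1, e2]
    rw [zero_add] at hall
    exact hall
  · intro x _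
    constructor
    · intro hx
      by_contra hcon
      push Not at hcon
      apply h0
      have : x = 0 := funext fun v => hcon v one_pos
      rwa [this] at hx
    · rintro ⟨v, -, hv⟩
      exact hnc x fun h => hv (by rw [h]; rfl)

end Pool.Agent.L0h21.ME
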