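import Pool.Agent.L0h21.RW.P17
import Pool.Agent.L0h47.RW.TT

/-! Period functionals of `z ^ a (x_1 ⋯ x_(n-1) + z ^ n) ^ M`. -/

set_option autoImplicit false
set_option linter.unusedSectionVars false

namespace Pool.Agent.L0h21.ME

open MvPolynomial

/-- `(-1) ^ k k! / ∏_(j ≤ k) (t + 1 + j)`. -/
noncomputable def Jv (k : ℕ) (t : ℂ) : ℂ :=
  (-1) ^ k * (k.factorial : ℂ) / ∏ j ∈ Finset.range (k + 1), (t + 1 + j)

theorem prod_ne (t : ℂ) (ht : ∀ z : ℤ, t ≠ z) (k : ℕ) : ∏ j ∈ Finset.range k, (t + 1 + j) ≠ 0 := by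
  rw [Finset.prod_ne_zero_iff]
  intro j _ h
  apply ht (-(1 + j))
  push_cast
  linear_combination h

theorem Jv_succ (k : ℕ) (t : ℂ) (ht : ∀ z : ℤ, t ≠ z) :
    Jv (k + 1) t + Jv k t = Jv k (t + 1) := by
  have h1 := prod_ne t ht (k + 1)
  have h2 := prod_ne t ht (k + 2)
  have h3 : ∏ j ∈ Finset.range (k + 2), (t + 1 + j) =
      (∏ j ∈ Finset.range (k + 1), (t + 1 + j)) * (t + 1 + (k + 1 : ℕ)) :=
    Finset.prod_range_succ _ _
  have h4 : ∏ j ∈ Finset.range (k + 2), (t + 1 + j) =
      (∏ j ∈ Finset.range (k + 1), (t + 1 + 1 + j)) * (t + 1) := by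
    rw [Finset.prod_range_succ']
    congr 1
    · refine Finset.prod_congr rfl fun j _ => ?_
      push_cast
      ring
    · push_cast
      ring
  have h5 : ∏ j ∈ Finset.range (k + 1), (t + 1 + 1 + j) ≠ 0 := by
    intro h
    rw [h4, h, zero_mul] at h2
    exact h2 rfl
  have h6 : (t + 1 + ((k + 1 : ℕ) : ℂ)) ≠ 0 := by
    intro h
    rw [h3, h, mul_zero] at h2
    exact h2 rfl
  have h7 : t + 1 ≠ 0 := by
    intro h
    rw [h4, h, mul_zero] at h2
    exact h2 rfl
  have h8 : (∏ j ∈ Finset.range (k + 1), (t + 1 + j)) * (t + 1 + ((k + 1 : ℕ) : ℂ)) =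
      (∏ j ∈ Finset.range (k + 1), (t + 1 + 1 + j)) * (t + 1) := by rw [← h3, h4]
  unfold Jv
  rw [h3]
  set A := ∏ j ∈ Finset.range (k + 1), (t + 1 + (j : ℂ)) with hA
  set B := ∏ j ∈ Finset.range (k + 1), (t + 1 + 1 + (j : ℂ)) with hB
  rw [Nat.factorial_succ]
  push_cast at h8 h6 ⊢
  field_simp
  rw [pow_succ]
  linear_combination (-1 : ℂ) ^ k * (k.factorial : ℂ) * h8 * (-1)

theorem Jv_der (k : ℕ) (t : ℂ) (ht : ∀ z : ℤ, t ≠ z) :
    ((k : ℂ) + 1) * Jv k t = -t * Jv (k + 1) (t - 1) := by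
  have h1 := prod_ne t ht (k + 1)
  have h0 : t ≠ 0 := by simpa using ht 0
  have h4 : ∏ j ∈ Finset.range (k + 1 + 1), (t - 1 + 1 + (j : ℂ)) =
      (∏ j ∈ Finset.range (k + 1), (t + 1 + j)) * t := by
    rw [Finset.prod_range_succ']
    congr 1
    · refine Finset.prod_congr rfl fun j _ => ?_
      push_cast
      ring
    · push_cast
      ring
  unfold Jv
  rw [h4, Nat.factorial_succ]
  push_cast
  field_simp
  ring

theorem Jv_z (k : ℕ) (t : ℂ) (ht : ∀ z : ℤ, t ≠ z) :
    t * Jv k (t - 1) = (t + k + 1) * Jv k t := by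
  have h1 := prod_ne t ht (k + 1)
  have h2 := prod_ne t ht k
  have h0 : t ≠ 0 := by simpa using ht 0
  have h4 : ∏ j ∈ Finset.range (k + 1), (t - 1 + 1 + (j : ℂ)) =
      (∏ j ∈ Finset.range k, (t + 1 + j)) * t := by
    rw [Finset.prod_range_succ']
    congr 1
    · refine Finset.prod_congr rfl fun j _ => ?_
      push_cast
      ring
    · push_cast
      ring
  have h5 : ∏ j ∈ Finset.range (k + 1), (t + 1 + (j : ℂ)) =
      (∏ j ∈ Finset.range k, (t + 1 + j)) * (t + 1 + k) := Finset.prod_range_succ _ _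
  have h6 : t + 1 + (k : ℂ) ≠ 0 := by
    intro h
    rw [h5, h, mul_zero] at h1
    exact h1 rfl
  unfold Jv
  rw [h4, h5]
  field_simp
  ring

variable {V : Type} [Fintype V] [DecidableEq V] (i v0 : V)

/-- The value of the functional on a monomial. -/
noncomputable def vl (n : ℕ) (w : ℕ) (t : ℂ) (μ : V →₀ ℕ) : ℂ :=
  open Classical in
  if (∀ v, v ≠ i → μ v = μ v0) ∧ μ i + n * μ v0 = w then Jv (μ v0) t else 0

/-- The functional. -/
noncomputable def Ph (n : ℕ) (w : ℕ) (t : ℂ) : MvPolynomial V ℂ →ₗ[ℂ] ℂ :=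
  (basisMonomials V ℂ).constr ℂ (vl i v0 n w t)

theorem Ph_mon (n w : ℕ) (t : ℂ) (μ : V →₀ ℕ) (a : ℂ) :
    Ph i v0 n w t (monomial μ a) = a * vl i v0 n w t μ := by
  have h1 : monomial μ a = a • (basisMonomials V ℂ) μ := by
    rw [coe_basisMonomials, smul_monomial, smul_eq_mul, mul_one]
  rw [h1, map_smul, Ph, Module.Basis.constr_basis, smul_eq_mul]

/-- The exponents of `∏_(v ≠ i) x_v`. -/
noncomputable def ones : V →₀ ℕ := Finsupp.equivFunOnFinite.symm fun v => if v = i then 0 else 1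

theorem ones_apply (v : V) : ones i v = if v = i then 0 else 1 := rfl

variable {i v0}

theorem vl_z (hv : v0 ≠ i) (n w : ℕ) (t : ℂ) (b : ℕ) (μ : V →₀ ℕ) :
    vl i v0 n (w + b) t (Finsupp.single i b + μ) = vl i v0 n w t μ := by
  classical
  have h0 : ∀ v, v ≠ i → (Finsupp.single i b + μ) v = μ v := by
    intro v hv
    rw [Finsupp.add_apply, Finsupp.single_eq_of_ne hv, zero_add]
  have h1 : (Finsupp.single i b + μ) i = b + μ i := by
    rw [Finsupp.add_apply, Finsupp.single_eq_same]
  unfold vl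
  rw [h0 v0 hv, h1]
  have h2 : ((∀ v, v ≠ i → (Finsupp.single i b + μ) v = μ v0) ∧ b + μ i + n * μ v0 = w + b) ↔
      ((∀ v, v ≠ i → μ v = μ v0) ∧ μ i + n * μ v0 = w) := by
    constructor
    · rintro ⟨h3, h4⟩
      exact ⟨fun v hv => by rw [← h0 v hv]; exact h3 v hv, by omega⟩
    · rintro ⟨h3, h4⟩
      exact ⟨fun v hv => by rw [h0 v hv]; exact h3 v hv, by omega⟩
  by_cases h : (∀ v, v ≠ i → μ v = μ v0) ∧ μ i + n * μ v0 = w
  · rw [if_pos (h2.2 h), if_pos h]
  · rw [if_neg (fun h' => h (h2.1 h')), if_neg h]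

theorem vl_x (hv : v0 ≠ i) (n w : ℕ) (t : ℂ) (μ : V →₀ ℕ) :
    vl i v0 n (w + n) t (ones i + μ) =
      open Classical in
      if (∀ v, v ≠ i → μ v = μ v0) ∧ μ i + n * μ v0 = w then Jv (μ v0 + 1) t else 0 := by
  classical
  have h0 : ∀ v, v ≠ i → (ones i + μ) v = μ v + 1 := by
    intro v hv
    rw [Finsupp.add_apply, ones_apply, if_neg hv, add_comm]
  have h1 : (ones i + μ) i = μ i := by
    rw [Finsupp.add_apply, ones_apply, if_pos rfl, zero_add]
  unfold vl
  rw [h0 v0 hv, h1]
  have h2 : ((∀ v, v ≠ i → (ones i + μ) v = μ v0 + 1) ∧ μ i + n * (μ v0 + 1) = w + n) ↔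
      ((∀ v, v ≠ i → μ v = μ v0) ∧ μ i + n * μ v0 = w) := by
    rw [mul_add, mul_one]
    constructor
    · rintro ⟨h3, h4⟩
      exact ⟨fun v hv => by have := h3 v hv; rw [h0 v hv] at this; omega, by omega⟩
    · rintro ⟨h3, h4⟩
      exact ⟨fun v hv => by rw [h0 v hv, h3 v hv], by omega⟩
  by_cases h : (∀ v, v ≠ i → μ v = μ v0) ∧ μ i + n * μ v0 = w
  · rw [if_pos (h2.2 h), if_pos h]
  · rw [if_neg (fun h' => h (h2.1 h')), if_neg h]

/-- The polynomial `∏_(v ≠ i) x_v + x_i ^ n`. -/
noncomputable def Hh (i : V) (n : ℕ) : MvPolynomial V ℂ :=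
  monomial (ones i) 1 + monomial (Finsupp.single i n) 1

theorem Ph_z (hv : v0 ≠ i) (n w : ℕ) (t : ℂ) (b : ℕ) (h : MvPolynomial V ℂ) :
    Ph i v0 n (w + b) t (monomial (Finsupp.single i b) 1 * h) = Ph i v0 n w t h := by
  induction h using MvPolynomial.induction_on' with
  | monomial μ a => rw [monomial_mul, one_mul, Ph_mon, Ph_mon, vl_z hv]
  | add p q hp hq => rw [mul_add, map_add, map_add, hp, hq]

theorem Ph_H (hv : v0 ≠ i) (n w : ℕ) (t : ℂ) (ht : ∀ z : ℤ, t ≠ z) (h : MvPolynomial V ℂ) :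
    Ph i v0 n (w + n) t (Hh i n * h) = Ph i v0 n w (t + 1) h := by
  classical
  induction h using MvPolynomial.induction_on' with
  | monomial μ a =>
    rw [Hh, add_mul, map_add, monomial_mul, monomial_mul, one_mul, Ph_mon, Ph_mon, Ph_mon, vl_x hv,
      vl_z hv]
    unfold vl
    split_ifs with h1
    · rw [← mul_add, Jv_succ _ _ ht]
    · simp
  | add p q hp hq => rw [mul_add, map_add, map_add, hp, hq]

theorem nonint_add {t : ℂ} (ht : ∀ z : ℤ, t ≠ z) (k : ℤ) : ∀ z : ℤ, t + k ≠ z := by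
  intro z h
  apply ht (z - k)
  push_cast
  linear_combination h

theorem Ph_Hpow (hv : v0 ≠ i) (n w M : ℕ) (t : ℂ) (ht : ∀ z : ℤ, t ≠ z) (h : MvPolynomial V ℂ) :
    Ph i v0 n (w + n * M) t (Hh i n ^ M * h) = Ph i v0 n w (t + M) h := by
  induction M generalizing t h with
  | zero => simp
  | succ M ih =>
    have h1 : Hh i n ^ (M + 1) * h = Hh i n * (Hh i n ^ M * h) := by ring
    have h2 : w + n * (M + 1) = (w + n * M) + n := by ring
    rw [h1, h2, Ph_H hv n _ t ht, ih (t + 1) (by
      have := nonint_add ht 1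
      intro z
      have h3 := this z
      push_cast at h3
      exact h3)]
    congr 2
    push_cast
    ring

/-- Partial integration in the direction of a variable `v ≠ i`. -/
theorem Ph_dx (hv : v0 ≠ i) (n w : ℕ) (t : ℂ) (ht : ∀ z : ℤ, t ≠ z) (v : V) (hvi : v ≠ i)
    (h3 : 3 ≤ Fintype.card V) (h : MvPolynomial V ℂ) :
    Ph i v0 n w t (pderiv v h) = -t * Ph i v0 n (w + n) (t - 1) (pderiv v (Hh i n) * h) := by
  classical
  have hH : pderiv v (Hh i n) = monomial (ones i - Finsupp.single v 1) 1 := by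
    rw [Hh, map_add, pderiv_monomial, pderiv_monomial, Finsupp.single_eq_of_ne hvi, ones_apply,
      if_neg hvi]
    simp
  rw [hH]
  have hon : ones i - Finsupp.single v 1 + Finsupp.single v 1 = ones i := by
    ext u
    rw [Finsupp.add_apply, Finsupp.tsub_apply, ones_apply]
    by_cases hu : u = v
    · subst hu
      rw [Finsupp.single_eq_same, if_neg hvi]
    · rw [Finsupp.single_eq_of_ne hu]
      omega
  induction h using MvPolynomial.induction_on' with
  | monomial μ a =>
    rw [pderiv_monomial, monomial_mul, one_mul, Ph_mon, Ph_mon]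
    by_cases h0 : μ v = 0
    · rw [h0, Nat.cast_zero, mul_zero, zero_mul]
      obtain ⟨u, hui, huv⟩ : ∃ u, u ≠ i ∧ u ≠ v := by
        by_contra hcon
        push Not at hcon
        have h1 : (Finset.univ : Finset V) ⊆ {i, v} := by
          intro u _
          rw [Finset.mem_insert, Finset.mem_singleton]
          by_cases hu : u = i
          · exact Or.inl hu
          · exact Or.inr (hcon u hu)
        have h2 := Finset.card_le_card h1
        rw [Finset.card_univ] at h2
        have h4 : ({i, v} : Finset V).card ≤ 2 := Finset.card_le_two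
        omega
      have h1 : vl i v0 n (w + n) (t - 1) (ones i - Finsupp.single v 1 + μ) = 0 := by
        unfold vl
        rw [if_neg]
        rintro ⟨h2, -⟩
        have h5 := h2 u hui
        have h6 := h2 v hvi
        rw [← h6, Finsupp.add_apply, Finsupp.add_apply, Finsupp.tsub_apply, Finsupp.tsub_apply,
          Finsupp.single_eq_same, Finsupp.single_eq_of_ne huv, ones_apply, ones_apply, if_neg hui,
          if_neg hvi, h0] at h5
        omega
      rw [h1]
      ring
    · set μ' := μ - Finsupp.single v 1 with hμ'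
      have h1 : μ = Finsupp.single v 1 + μ' := by
        ext u
        rw [Finsupp.add_apply, hμ', Finsupp.tsub_apply]
        by_cases hu : u = v
        · subst hu
          rw [Finsupp.single_eq_same]
          omega
        · rw [Finsupp.single_eq_of_ne hu]
          omega
      have h2 : ones i - Finsupp.single v 1 + μ = ones i + μ' := by
        rw [h1, ← add_assoc, hon]
      rw [h2, vl_x hv]
      have h4 : μ v = μ' v + 1 := by
        conv_lhs => rw [h1]
        rw [Finsupp.add_apply, Finsupp.single_eq_same, add_comm]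
      unfold vl
      split_ifs with h5
      · rw [h4, h5.1 v hvi]
        have h6 := Jv_der (μ' v0) t ht
        push_cast
        linear_combination a * h6
      · simp
  | add p q hp hq => rw [map_add, map_add, hp, hq, mul_add, map_add]; ring

/-- Partial integration in the direction of `z`. -/
theorem Ph_dz (hv : v0 ≠ i) (n w : ℕ) (t : ℂ) (ht : ∀ z : ℤ, t ≠ z) (sa s' : ℂ)
    (hs : s' = -t) (hw : (w : ℂ) + 1 = sa - n * t - n) (hn : 1 ≤ n) (h : MvPolynomial V ℂ) :
    Ph i v0 n w t (pderiv i h) = sa * Ph i v0 n (w + 1) t h +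
      s' * Ph i v0 n (w + n) (t - 1) (pderiv i (Hh i n) * h) := by
  classical
  have hH : pderiv i (Hh i n) = C (n : ℂ) * monomial (Finsupp.single i (n - 1)) 1 := by
    rw [Hh, map_add, pderiv_monomial, pderiv_monomial, Finsupp.single_eq_same, ones_apply,
      if_pos rfl, Nat.cast_zero, mul_zero, monomial_zero, zero_add, ← Finsupp.single_tsub,
      C_mul_monomial, one_mul, mul_one]
  have h0 : Ph i v0 n (w + n) (t - 1) (pderiv i (Hh i n) * h) =
      n * Ph i v0 n (w + 1) (t - 1) h := by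
    rw [hH, mul_assoc, ← smul_eq_C_mul, map_smul, smul_eq_mul]
    have h1 : w + n = (w + 1) + (n - 1) := by omega
    rw [h1, Ph_z hv]
  rw [h0]
  clear h0 hH
  induction h using MvPolynomial.induction_on' with
  | monomial μ a =>
    rw [pderiv_monomial, Ph_mon, Ph_mon, Ph_mon]
    have key : (μ i : ℂ) * vl i v0 n w t (μ - Finsupp.single i 1) =
        (μ i : ℂ) * vl i v0 n (w + 1) t μ := by
      by_cases h2 : μ i = 0
      · rw [h2, Nat.cast_zero, zero_mul, zero_mul]
      · have h3 : μ = Finsupp.single i 1 + (μ - Finsupp.single i 1) := by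
          ext u
          rw [Finsupp.add_apply, Finsupp.tsub_apply]
          by_cases hu : u = i
          · subst hu
            rw [Finsupp.single_eq_same]
            omega
          · rw [Finsupp.single_eq_of_ne hu]
            omega
        conv_rhs => rw [h3]
        rw [vl_z hv, ← h3]
    rw [mul_assoc, key]
    unfold vl
    split_ifs with h5
    · have h6 := Jv_z (μ v0) t ht
      have h7 : (μ i : ℂ) = w + 1 - n * μ v0 := by
        have := h5.2
        rw [eq_sub_iff_add_eq]
        exact_mod_cast this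
      rw [h7, hw, hs]
      linear_combination (-(n : ℂ)) * a * h6 * (-1)
    · simp
  | add p q hp hq => rw [map_add, map_add, hp, hq, map_add, map_add]; ring

end Pool.Agent.L0h21.ME
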