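import Pool.Agent.L0h21.ME.U1

/-! The period of `z ^ a (x_1 ⋯ x_(n-1) + z ^ n) ^ M`. -/

set_option autoImplicit false
set_option linter.unusedSectionVars false

namespace Pool.Agent.L0h21.ME

open MvPolynomial Pool.Agent.L0h21.RW
open Pool.Agent.L0h21.SN hiding lin

variable {V : Type} [Fintype V] [DecidableEq V] {i v0 : V}

theorem Ph_sum (n w : ℕ) (t : ℂ) (h : MvPolynomial V ℂ) :
    Ph i v0 n w t h = ∑ μ ∈ h.support, coeff μ h * vl i v0 n w t μ := by
  conv_lhs => rw [h.as_sum]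
  rw [map_sum]
  exact Finset.sum_congr rfl fun μ _ => Ph_mon _ _ _ _ _ _ _

/-- The weights. -/
def wn (i : V) (v : V) : ℕ := if v = i then Fintype.card V - 1 else Fintype.card V

/-- The weight of a monomial on which the functional does not vanish. -/
theorem vl_weight (w : ℕ) (t : ℂ) (μ : V →₀ ℕ)
    (h : vl i v0 (Fintype.card V) w t μ ≠ 0) :
    Finsupp.weight (wn i) μ = (Fintype.card V - 1) * w := by
  unfold vl at h
  split_ifs at h with h1
  · obtain ⟨h2, h3⟩ := h1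
    rw [Finsupp.weight_apply, Finsupp.sum_fintype _ _ (by simp),
      ← Finset.sum_erase_add _ _ (Finset.mem_univ i), Finset.sum_congr rfl fun v hv => by
        rw [wn, if_neg (Finset.ne_of_mem_erase hv), h2 v (Finset.ne_of_mem_erase hv)],
      Finset.sum_const, Finset.card_erase_of_mem (Finset.mem_univ i), Finset.card_univ, wn,
      if_pos rfl, ← h3]
    simp only [smul_eq_mul]
    ring
  · exact absurd rfl h

theorem Ph_ord (w : ℕ) (t : ℂ) (h : MvPolynomial V ℂ)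
    (ho : OrdGE (wn i) ((Fintype.card V - 1) * w + 1) h) :
    Ph i v0 (Fintype.card V) w t h = 0 := by
  rw [Ph_sum]
  refine Finset.sum_eq_zero fun μ hμ => ?_
  by_cases h1 : vl i v0 (Fintype.card V) w t μ = 0
  · rw [h1, mul_zero]
  · have h2 := vl_weight w t μ h1
    rw [ordGE_iff] at ho
    have h3 := ho μ (mem_support_iff.1 hμ)
    omega

/-- The polynomial. -/
noncomputable def GG (i : V) (cc : ℂ) (a M : ℕ) : MvPolynomial V ℂ :=
  C cc * (monomial (Finsupp.single i a) 1 * Hh i (Fintype.card V) ^ M)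

/-- The factors. -/
noncomputable def Pm (e0 cc : ℂ) (m : ℕ) : ℂ := (∏ j ∈ Finset.range m, ((j : ℂ) - e0)) * (cc⁻¹) ^ m

theorem Pm_succ (e0 cc : ℂ) (hcc : cc ≠ 0) (m : ℕ) :
    Pm e0 cc (m + 1) * cc = ((m : ℂ) - e0) * Pm e0 cc m := by
  unfold Pm
  rw [Finset.prod_range_succ, pow_succ]
  field_simp

theorem t_succ (M : ℕ) (e0 : ℂ) (m : ℕ) :
    (M : ℂ) * (e0 - ((m + 1 : ℕ) : ℂ)) + M = M * (e0 - m) := by
  push_cast
  ring

/-- The recursion. -/
theorem Ph_G (hv : v0 ≠ i) (cc : ℂ) (a M : ℕ) (e0 : ℂ) (ht : ∀ m : ℕ, ∀ z : ℤ, (M : ℂ) * (e0 - m) ≠ z)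
    (m : ℕ) (h : MvPolynomial V ℂ) :
    Ph i v0 (Fintype.card V) ((m + 1) * (a + Fintype.card V * M)) (M * (e0 - ((m + 1 : ℕ) : ℂ)))
      (GG i cc a M * h) =
    cc * Ph i v0 (Fintype.card V) (m * (a + Fintype.card V * M)) (M * (e0 - m)) h := by
  set n := Fintype.card V with hn
  have h1 : GG i cc a M * h = cc • (monomial (Finsupp.single i a) 1 * (Hh i n ^ M * h)) := by
    rw [GG, smul_eq_C_mul]
    ring
  have h2 : (m + 1) * (a + n * M) = (m * (a + n * M) + n * M) + a := by ring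
  rw [h1, map_smul, smul_eq_mul, h2, Ph_z hv, Ph_Hpow hv _ _ _ _ (ht (m + 1)), t_succ]

theorem Ph_B (hv : v0 ≠ i) (h3 : 3 ≤ Fintype.card V) (cc : ℂ) (hcc : cc ≠ 0) (a M : ℕ) (hM : 0 < M)
    (e0 : ℂ) (ht : ∀ m : ℕ, ∀ z : ℤ, (M : ℂ) * (e0 - m) ≠ z)
    (he : e0 * (a + Fintype.card V * M) = -(Fintype.card V + 1)) (m : ℕ) (v : V)
    (h : MvPolynomial V ℂ) :
    Pm e0 cc m * Ph i v0 (Fintype.card V) (m * (a + Fintype.card V * M)) (M * (e0 - m))
      (pderiv v h) =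
    Pm e0 cc (m + 1) * Ph i v0 (Fintype.card V) ((m + 1) * (a + Fintype.card V * M))
      (M * (e0 - ((m + 1 : ℕ) : ℂ))) (pderiv v (GG i cc a M) * h) := by
  set n := Fintype.card V with hn
  obtain ⟨M', rfl⟩ : ∃ M', M = M' + 1 := ⟨M - 1, by omega⟩
  have hT : ∀ h : MvPolynomial V ℂ, Ph i v0 n (m * (a + n * (M' + 1)) + n + n * M')
      (((M' + 1 : ℕ) : ℂ) * (e0 - ((m + 1 : ℕ) : ℂ))) (Hh i n ^ M' * h) =
      Ph i v0 n (m * (a + n * (M' + 1)) + n) (((M' + 1 : ℕ) : ℂ) * (e0 - m) - 1) h := by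
    intro h
    rw [Ph_Hpow hv _ _ _ _ (ht (m + 1))]
    congr 2
    push_cast
    ring
  have hPm := Pm_succ e0 cc hcc m
  by_cases hvi : v = i
  · subst hvi
    have h1 : pderiv v (GG v cc a (M' + 1)) * h =
        cc • ((a : ℂ) • (monomial (Finsupp.single v (a - 1)) 1 * (Hh v n ^ (M' + 1) * h)) +
          ((M' + 1 : ℕ) : ℂ) • (monomial (Finsupp.single v a) 1 *
            (Hh v n ^ M' * (pderiv v (Hh v n) * h)))) := by
      rw [GG, pderiv_C_mul, Derivation.leibniz, pderiv_pow, pderiv_monomial, Finsupp.single_eq_same,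
        ← Finsupp.single_tsub, one_mul, smul_eq_mul, smul_eq_mul, Nat.add_sub_cancel,
        smul_eq_C_mul, smul_eq_C_mul, smul_eq_C_mul]
      have h2 : (monomial (Finsupp.single v (a - 1)) (a : ℂ) : MvPolynomial V ℂ) =
          C (a : ℂ) * monomial (Finsupp.single v (a - 1)) 1 := by
        rw [C_mul_monomial, mul_one]
      have h3 : (((M' + 1 : ℕ) : MvPolynomial V ℂ)) = C (((M' + 1 : ℕ) : ℂ)) := by
        rw [map_natCast]
      rw [h2, ← h3]
      ring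
    rw [h1, map_smul, map_add, map_smul, map_smul, smul_eq_mul, smul_eq_mul, smul_eq_mul]
    have h2 : (m + 1) * (a + n * (M' + 1)) = (m * (a + n * (M' + 1)) + n + n * M') + a := by ring
    have h4 : Ph v v0 n ((m + 1) * (a + n * (M' + 1))) (((M' + 1 : ℕ) : ℂ) * (e0 - ((m + 1 : ℕ) : ℂ)))
        (monomial (Finsupp.single v a) 1 * (Hh v n ^ M' * (pderiv v (Hh v n) * h))) =
        Ph v v0 n (m * (a + n * (M' + 1)) + n) (((M' + 1 : ℕ) : ℂ) * (e0 - m) - 1)
          (pderiv v (Hh v n) * h) := by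
      rw [h2, Ph_z hv, hT]
    have h5 : (a : ℂ) * Ph v v0 n ((m + 1) * (a + n * (M' + 1)))
        (((M' + 1 : ℕ) : ℂ) * (e0 - ((m + 1 : ℕ) : ℂ)))
        (monomial (Finsupp.single v (a - 1)) 1 * (Hh v n ^ (M' + 1) * h)) =
        (a : ℂ) * Ph v v0 n (m * (a + n * (M' + 1)) + 1) (((M' + 1 : ℕ) : ℂ) * (e0 - m)) h := by
      rcases Nat.eq_zero_or_pos a with h0 | h0
      · rw [h0, Nat.cast_zero, zero_mul, zero_mul]
      · have h6 : (m + 1) * (a + n * (M' + 1)) =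
            (m * (a + n * (M' + 1)) + 1 + n * (M' + 1)) + (a - 1) := by
          have : (m + 1) * (a + n * (M' + 1)) = m * (a + n * (M' + 1)) + (a + n * (M' + 1)) := by
            ring
          omega
        rw [h6, Ph_z hv, Ph_Hpow hv _ _ _ _ (ht (m + 1)), t_succ]
    rw [h4, h5, Ph_dz hv n _ _ (ht m) (((m : ℂ) - e0) * a) (((m : ℂ) - e0) * ((M' + 1 : ℕ) : ℂ))
      (by ring) (by push_cast at he ⊢; linear_combination he) (by omega) h]
    linear_combination (-(a : ℂ) * Ph v v0 n (m * (a + n * (M' + 1)) + 1)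
      (((M' + 1 : ℕ) : ℂ) * (e0 - m)) h - ((M' + 1 : ℕ) : ℂ) *
        Ph v v0 n (m * (a + n * (M' + 1)) + n) (((M' + 1 : ℕ) : ℂ) * (e0 - m) - 1)
          (pderiv v (Hh v n) * h)) * hPm
  · have h1 : pderiv v (GG i cc a (M' + 1)) * h =
        cc • (((M' + 1 : ℕ) : ℂ) • (monomial (Finsupp.single i a) 1 *
            (Hh i n ^ M' * (pderiv v (Hh i n) * h)))) := by
      rw [GG, pderiv_C_mul, Derivation.leibniz, pderiv_pow, pderiv_monomial,
        Finsupp.single_eq_of_ne hvi, Nat.cast_zero, mul_zero, monomial_zero, smul_zero, add_zero,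
        smul_eq_mul, Nat.add_sub_cancel, smul_eq_C_mul, smul_eq_C_mul]
      have h3 : (((M' + 1 : ℕ) : MvPolynomial V ℂ)) = C (((M' + 1 : ℕ) : ℂ)) := by
        rw [map_natCast]
      rw [← h3]
      ring
    rw [h1, map_smul, map_smul, smul_eq_mul, smul_eq_mul]
    have h2 : (m + 1) * (a + n * (M' + 1)) = (m * (a + n * (M' + 1)) + n + n * M') + a := by ring
    rw [h2, Ph_z hv, hT, Ph_dx hv n _ _ (ht m) v hvi h3 h]
    linear_combination (-((M' + 1 : ℕ) : ℂ) *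
        Ph i v0 n (m * (a + n * (M' + 1)) + n) (((M' + 1 : ℕ) : ℂ) * (e0 - m) - 1)
          (pderiv v (Hh i n) * h)) * hPm

/-- **The period of `z ^ a (x_1 ⋯ x_(n-1) + z ^ n) ^ M`.** -/
theorem hp_GG (hv : v0 ≠ i) (h3 : 3 ≤ Fintype.card V) (cc : ℂ) (hcc : cc ≠ 0) (a M : ℕ) (hM : 0 < M)
    (e0 : ℂ) (ht : ∀ m : ℕ, ∀ z : ℤ, (M : ℂ) * (e0 - m) ≠ z)
    (he : e0 * (a + Fintype.card V * M) = -(Fintype.card V + 1)) :
    HP (wn i) ((Fintype.card V - 1) * (a + Fintype.card V * M)) (GG i cc a M) e0 := by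
  set n := Fintype.card V with hn
  set D := a + n * M with hD
  let c : MvPolynomial V ℂ → ℕ → MvPolynomial V ℂ →ₗ[ℂ] ℂ := fun q m =>
    (Pm e0 cc m) • ((Ph i v0 n (m * D) (M * (e0 - m))) ∘ₗ (LinearMap.mulLeft ℂ q))
  have hc : ∀ q m h, c q m h = Pm e0 cc m * Ph i v0 n (m * D) (M * (e0 - m)) (q * h) := by
    intro q m h
    simp [c]
  refine ⟨Set.range c, ?_, ?_, ?_, ?_, c 1, ⟨1, rfl⟩, ?_⟩
  · rintro _ ⟨q, rfl⟩ m h ho
    rw [hc]
    have h1 : OrdGE (wn i) (m * ((n - 1) * D) + 1) h := fun e he => ho e (by omega)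
    have h2 := (OrdGE.of_zero (w := wn i) q).mul h1
    rw [Ph_ord _ _ _ (h2.mono (by
      have : (Fintype.card V - 1) * (m * D) = m * ((n - 1) * D) := by
        rw [hn]
        ring
      omega)), mul_zero]
  · rintro _ ⟨q, rfl⟩ m h
    rw [hc, hc]
    have h1 : q * (GG i cc a M * h) = GG i cc a M * (q * h) := by ring
    rw [h1, Ph_G hv cc a M e0 ht m]
    have h2 := Pm_succ e0 cc hcc m
    linear_combination (Ph i v0 n (m * D) (M * (e0 - m)) (q * h)) * h2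
  · rintro _ ⟨q, rfl⟩ v
    refine ⟨c (-pderiv v q), ⟨_, rfl⟩, fun m h => ?_⟩
    rw [hc, hc, hc]
    have h1 := Ph_B hv h3 cc hcc a M hM e0 ht he m v (q * h)
    have h2 : pderiv v (q * h) = q * pderiv v h - (-pderiv v q) * h := by
      rw [Derivation.leibniz, smul_eq_mul, smul_eq_mul]
      ring
    have h4 : q * (pderiv v (GG i cc a M) * h) = pderiv v (GG i cc a M) * (q * h) := by ring
    rw [h2, map_sub] at h1
    rw [h4]
    linear_combination h1
  · rintro _ ⟨q, rfl⟩ v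
    refine ⟨c (q * X v), ⟨_, rfl⟩, fun m h => ?_⟩
    rw [hc, hc, mul_assoc]
  · rw [hc, one_mul]
    have h1 : (1 : MvPolynomial V ℂ) = monomial 0 1 := rfl
    rw [h1, Ph_mon]
    unfold vl
    rw [if_pos ⟨fun v _ => rfl, by simp⟩]
    have h2 := prod_ne ((M : ℂ) * (e0 - ((0 : ℕ) : ℂ))) (ht 0) 1
    have h4 : Pm e0 cc 0 = 1 := by simp [Pm]
    rw [h4, one_mul, one_mul]
    unfold Jv
    simpa using h2

end Pool.Agent.L0h21.ME
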