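import Pool.Agent.L0h21.MD.S7

/-! Initial forms for the weights `(p, p + q, …, p + q)`, any number of components. -/

set_option autoImplicit false
set_option linter.unusedSectionVars false

namespace Pool.Agent.L0h21.ME

open MvPolynomial Pool.Agent.L0h21.RW Pool.Agent.L0h21.MD
open Pool.Agent.L0h21.SN hiding lin

variable {V : Type} [Fintype V] [DecidableEq V]

/-- The weights. -/
def wp (p q : ℕ) (i : V) (v : V) : ℕ := if v = i then p else p + q

theorem wp_eq (p q : ℕ) (i : V) (m : V →₀ ℕ) :
    Finsupp.weight (wp p q i) m + q * m i = p * Finsupp.degree m + q * Finsupp.degree m := by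
  rw [← add_mul, Finsupp.weight_apply, Finsupp.sum_fintype _ _ (by simp), deg_eq, Finset.mul_sum,
    ← Finset.sum_erase_add _ _ (Finset.mem_univ i)]
  have h1 : ∑ v, (p + q) * m v = ∑ v ∈ Finset.univ.erase i, (p + q) * m v + (p + q) * m i :=
    (Finset.sum_erase_add _ _ (Finset.mem_univ i)).symm
  rw [h1, Finset.sum_congr rfl fun v hv => by
    rw [wp, if_neg (Finset.ne_of_mem_erase hv), smul_eq_mul, mul_comm]]
  rw [wp, if_pos rfl, smul_eq_mul]
  ring

theorem wp_ge (p q : ℕ) (i : V) (m : V →₀ ℕ) :
    p * Finsupp.degree m ≤ Finsupp.weight (wp p q i) m := by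
  have h1 := wp_eq p q i m
  have h2 := Nat.mul_le_mul_left q (le_deg i m)
  omega

/-- The low form of a form. -/
theorem low0p {p q : ℕ} (hq : 0 < q) {G : MvPolynomial V ℂ} {e : ℕ} (h : G.IsHomogeneous e) (i : V) :
    LowC (wp p q i) (p * e) G (C (eval (Pi.single i 1) G) * X i ^ e) := by
  have h1 : OrdGE (wp p q i) (p * e) G := by
    rw [ordGE_iff]
    intro m hm
    have h4 := hom_deg h hm
    rw [← h4]
    exact wp_ge p q i m
  refine ⟨h1, ?_⟩
  ext m
  rw [coeff_weightedHomogeneousComponent, eval_single h, coeff_C_mul, coeff_X_pow]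
  by_cases hm : Finsupp.single i e = m
  · subst hm
    rw [if_pos rfl, mul_one, if_pos]
    rw [Finsupp.weight_single, wp, if_pos rfl, smul_eq_mul, mul_comm]
  · rw [if_neg hm, mul_zero]
    split_ifs with h2
    · by_contra h3
      apply hm
      have h4 := wp_eq p q i m
      have h5 := hom_deg h h3
      have h6 := le_deg i m
      have h7 : q * m i = q * Finsupp.degree m := by
        rw [h2, ← h5] at h4
        omega
      have h9 := eq_single i m (Nat.eq_of_mul_eq_mul_left hq h7)
      rw [h5] at h9
      exact h9.symm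
    · rfl

/-- The low form of a form which vanishes at the point. -/
theorem low1p {p q : ℕ} (hq : 0 < q) {G : MvPolynomial V ℂ} {e : ℕ} (h : G.IsHomogeneous (e + 1))
    (i : V) (h0 : eval (Pi.single i 1) G = 0) :
    LowC (wp p q i) (p * e + (p + q)) G
      (X i ^ e * ∑ v ∈ Finset.univ.erase i, C (eval (Pi.single i 1) (pderiv v G)) * X v) := by
  have hlt : ∀ m : V →₀ ℕ, coeff m G ≠ 0 → m i ≤ e := by
    intro m hm
    have h1 := le_deg i m
    have h2 := hom_deg h hm
    by_contra hlt
    have h3 : m i = Finsupp.degree m := by omega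
    have h4 := eq_single i m h3
    rw [h2] at h4
    rw [eval_single h, ← h4] at h0
    exact hm h0
  refine ⟨?_, ?_⟩
  · rw [ordGE_iff]
    intro m hm
    have h1 := wp_eq p q i m
    have h2 := hom_deg h hm
    have h3 := Nat.mul_le_mul_left q (hlt m hm)
    rw [h2, mul_add, mul_add, mul_one, mul_one] at h1
    omega
  · set G' := weightedHomogeneousComponent (wp p q i) (p * e + (p + q)) G with hG'
    have h2 : IsWeightedHomogeneous (fun v => if v = i then 0 else 1) G' 1 := by
      intro m hm
      rw [hG', coeff_weightedHomogeneousComponent] at hm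
      have h3 : Finsupp.weight (wp p q i) m = p * e + (p + q) := by
        by_contra h4
        rw [if_neg h4] at hm
        exact hm rfl
      rw [if_pos h3] at hm
      have h4 := hom_deg h hm
      have h5 := wp_eq p q i m
      have h7 : q * m i = q * e := by
        rw [h3, h4, mul_add, mul_add, mul_one, mul_one] at h5
        omega
      have h9 := Nat.eq_of_mul_eq_mul_left hq h7
      rw [Finsupp.weight_apply, Finsupp.sum_fintype _ _ (by simp),
        ← Finset.sum_erase_add _ _ (Finset.mem_univ i), if_pos rfl, smul_zero, add_zero]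
      rw [Finset.sum_congr rfl fun v hv => by
        rw [if_neg (Finset.ne_of_mem_erase hv), smul_eq_mul, mul_one]]
      have h6 := deg_eq m
      rw [← Finset.sum_erase_add _ _ (Finset.mem_univ i)] at h6
      change ∑ x ∈ Finset.univ.erase i, m x = 1
      omega
    have h3 := h2.sum_weight_X_mul_pderiv
    rw [one_nsmul, ← Finset.sum_erase_add _ _ (Finset.mem_univ i), if_pos rfl, zero_nsmul,
      add_zero] at h3
    rw [← h3, Finset.mul_sum]
    refine Finset.sum_congr rfl fun v hv => ?_
    rw [if_neg (Finset.ne_of_mem_erase hv), one_nsmul]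
    have h4 := whc_pderiv (wp p q i) v (p * e) G
    rw [wp, if_neg (Finset.ne_of_mem_erase hv)] at h4
    have h5 : (pderiv v G).IsHomogeneous e := by
      have := h.pderiv (i := v)
      rwa [Nat.add_sub_cancel] at this
    rw [(low0p hq h5 i).2] at h4
    rw [← h4]
    ring

/-- High order. -/
theorem aphi_ordp (p q : ℕ) (y : V → ℂ) (i : V) (K : ℕ) (R : MvPolynomial V ℂ)
    (hR : ∀ m, coeff m R ≠ 0 → K ≤ Finsupp.degree m) :
    OrdGE (wp p q i) (p * K) (aeval (phi y i) R) := by
  have hphi : ∀ v, OrdGE (wp p q i) p (phi y i v) := by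
    intro v
    rw [ordGE_iff]
    intro m hm
    have h1 := wp_ge p q i m
    rw [hom_deg (phi_hom y i v) hm, mul_one] at h1
    exact h1
  rw [aeval_def, eval₂_eq']
  refine OrdGE.sum _ fun m hm => ?_
  have h1 : OrdGE (wp p q i) (∑ v, m v * p) (∏ v, phi y i v ^ m v) := by
    have h2 : ∀ S : Finset V, OrdGE (wp p q i) (∑ v ∈ S, m v * p) (∏ v ∈ S, phi y i v ^ m v) := by
      intro S
      induction S using Finset.induction_on with
      | empty => simpa using OrdGE.of_zero _
      | insert a S ha ih =>
        rw [Finset.sum_insert ha, Finset.prod_insert ha]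
        refine OrdGE.mul ?_ ih
        generalize m a = n
        induction n with
        | zero => simpa using OrdGE.of_zero _
        | succ n ihn =>
          rw [pow_succ, Nat.succ_mul]
          exact ihn.mul (hphi a)
    exact h2 _
  have h3 := hR m (mem_support_iff.1 hm)
  rw [← Finset.sum_mul, ← deg_eq, mul_comm] at h1
  exact (h1.C_mul _).mono (Nat.mul_le_mul_left _ h3)

/-- The low form of the tangent cone. -/
theorem low_coneP {K : Type} [Fintype K] [DecidableEq K] {p q : ℕ} (hq : 0 < q) (y : V → ℂ) (i : V)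
    (g : K → MvPolynomial V ℂ) (e : K → ℕ) (hg : ∀ j, (g j).IsHomogeneous (e j)) (c : ℂ)
    (U A : Finset K) (hAU : A ⊆ U) (hA : ∀ k ∈ A, eval y (g k) = 0) (ee : K → ℕ)
    (hee : ∀ k ∈ A, e k = ee k + 1) (d : ℕ) (hd : d = ∑ j ∈ U, e j) :
    A.card ≤ d ∧ LowC (wp p q i) (p * d + q * A.card) (aeval (phi y i) (C c * ∏ j ∈ U, g j))
      (X i ^ (d - A.card) * (C (c * ∏ j ∈ U \ A, eval y (g j)) * ∏ k ∈ A, lin y i (g k))) := by
  have hs1 : ∑ k ∈ A, e k = ∑ k ∈ A, ee k + A.card := by
    rw [Finset.sum_congr rfl hee, Finset.sum_add_distrib, Finset.sum_const, smul_eq_mul, mul_one]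
  have hsum : d = ∑ j ∈ U \ A, e j + (∑ k ∈ A, ee k + A.card) := by
    rw [hd, ← hs1, Finset.sum_sdiff hAU]
  have h1 : LowC (wp p q i) (∑ j ∈ U \ A, p * e j) (∏ j ∈ U \ A, aeval (phi y i) (g j))
      (∏ j ∈ U \ A, (C (eval y (g j)) * X i ^ e j)) := by
    refine LowC.prod _ fun j _ => ?_
    have := low0p (p := p) hq (aphi_hom y i (hg j)) i
    rwa [aphi_eval] at this
  have h2 : LowC (wp p q i) (∑ k ∈ A, (p * ee k + (p + q))) (∏ k ∈ A, aeval (phi y i) (g k))
      (∏ k ∈ A, (X i ^ ee k * lin y i (g k))) := by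
    refine LowC.prod _ fun k hk => ?_
    have h3 := aphi_hom y i (hg k)
    rw [hee k hk] at h3
    have h4 := low1p (p := p) hq h3 i (by rw [aphi_eval, hA k hk])
    have h5 : ∑ v ∈ Finset.univ.erase i, C (eval (Pi.single i 1)
        (pderiv v (aeval (phi y i) (g k)))) * X v = lin y i (g k) := by
      unfold lin
      refine Finset.sum_congr rfl fun v hv => ?_
      rw [aphi_pderiv y i v (Finset.ne_of_mem_erase hv)]
    rwa [h5] at h4
  have h3 := (LowC.C (w := wp p q i) c).mul (h1.mul h2)
  refine ⟨by omega, ?_⟩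
  have e1 : 0 + (∑ j ∈ U \ A, p * e j + ∑ k ∈ A, (p * ee k + (p + q))) = p * d + q * A.card := by
    rw [Finset.sum_add_distrib, ← Finset.mul_sum, ← Finset.mul_sum, Finset.sum_const, smul_eq_mul,
      hsum]
    ring
  rw [e1] at h3
  have e2 : aeval (phi y i) (C c * ∏ j ∈ U, g j) = C c * ((∏ j ∈ U \ A, aeval (phi y i) (g j)) *
      ∏ k ∈ A, aeval (phi y i) (g k)) := by
    rw [← Finset.prod_sdiff hAU, map_mul, map_mul, map_prod, map_prod, aeval_C, algebraMap_eq]
  have e3 : X i ^ (d - A.card) * (C (c * ∏ j ∈ U \ A, eval y (g j)) * ∏ k ∈ A, lin y i (g k)) =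
      C c * ((∏ j ∈ U \ A, (C (eval y (g j)) * X i ^ e j)) *
        ∏ k ∈ A, (X i ^ ee k * lin y i (g k))) := by
    have e4 : d - A.card = ∑ j ∈ U \ A, e j + ∑ k ∈ A, ee k := by omega
    have e5 : (C (c * ∏ j ∈ U \ A, eval y (g j)) : MvPolynomial V ℂ) =
        C c * ∏ j ∈ U \ A, C (eval y (g j)) := by
      rw [C_mul]
      congr 1
      exact map_prod C _ _
    rw [Finset.prod_mul_distrib, Finset.prod_mul_distrib, Finset.prod_pow_eq_pow_sum,
      Finset.prod_pow_eq_pow_sum, e5, e4, pow_add]
    ring
  rw [e2, e3]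
  exact h3

/-- The low form of a component whose tangent cone does not pass through the point. -/
theorem low_otherP {p q : ℕ} (hp : 0 < p) (hq : 0 < q) (P y : V → ℂ) (i : V) (f : MvPolynomial V ℂ)
    (d : ℕ) (hlow : ∀ a < d, homogeneousComponent a (shift P f) = 0) :
    LowC (wp p q i) (p * d) (aeval (phi y i) (shift P f))
      (C (eval y (homogeneousComponent d (shift P f))) * X i ^ d) := by
  have h2 := low0p (p := p) hq (aphi_hom y i (homogeneousComponent_isHomogeneous d (shift P f))) i
  rw [aphi_eval] at h2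
  have h3 : OrdGE (wp p q i) (p * (d + 1)) (aeval (phi y i)
      (shift P f - homogeneousComponent d (shift P f))) := by
    refine aphi_ordp p q y i (d + 1) _ fun m hm => ?_
    rw [coeff_sub, coeff_homogeneousComponent] at hm
    by_contra hlt
    have h4 : Finsupp.degree m < d ∨ Finsupp.degree m = d := by omega
    rcases h4 with h4 | h4
    · have h5 := congrArg (coeff m) (hlow _ h4)
      rw [coeff_homogeneousComponent, if_pos rfl, coeff_zero] at h5
      rw [h5] at hm
      simp at hm
    · rw [if_pos h4] at hm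
      simp at hm
  have h4 : aeval (phi y i) (shift P f) = aeval (phi y i) (homogeneousComponent d (shift P f)) +
      aeval (phi y i) (shift P f - homogeneousComponent d (shift P f)) := by
    rw [← map_add]
    congr 1
    ring
  rw [h4]
  have h5 : p * d < p * (d + 1) := Nat.mul_lt_mul_of_pos_left (Nat.lt_succ_self d) hp
  refine ⟨h2.1.add (h3.mono h5.le), ?_⟩
  rw [map_add, h2.2, h3 (p * d) h5, add_zero]

/-- The low form at a point where `r` components of the tangent cone meet, `q r = p`. -/
theorem low_nodeP {p q : ℕ} (hp : 0 < p) (hq : 0 < q) (P y : V → ℂ) (i : V) (f : MvPolynomial V ℂ)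
    (d r : ℕ) (hlow : ∀ a < d, homogeneousComponent a (shift P f) = 0) (κ : ℂ)
    (L : MvPolynomial V ℂ) (hrd : r ≤ d) (hr : q * r = p)
    (h1 : LowC (wp p q i) (p * d + q * r) (aeval (phi y i) (homogeneousComponent d (shift P f)))
      (X i ^ (d - r) * (C κ * L))) :
    LowC (wp p q i) (p * (d + 1)) (aeval (phi y i) (shift P f))
      (X i ^ (d - r) * (C κ * L +
        C (eval y (homogeneousComponent (d + 1) (shift P f))) * X i ^ (r + 1))) := by
  set S := shift P f with hS
  have h2 := low0p (p := p) hq (aphi_hom y i (homogeneousComponent_isHomogeneous (d + 1) S)) i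
  rw [aphi_eval] at h2
  have h3 : OrdGE (wp p q i) (p * (d + 2)) (aeval (phi y i)
      (S - homogeneousComponent d S - homogeneousComponent (d + 1) S)) := by
    refine aphi_ordp p q y i (d + 2) _ fun m hm => ?_
    rw [coeff_sub, coeff_sub, coeff_homogeneousComponent, coeff_homogeneousComponent] at hm
    by_contra hlt
    have h4 : Finsupp.degree m < d ∨ Finsupp.degree m = d ∨ Finsupp.degree m = d + 1 := by omega
    rcases h4 with h4 | h4 | h4
    · have h5 := congrArg (coeff m) (hlow _ h4)
      rw [coeff_homogeneousComponent, if_pos rfl, coeff_zero] at h5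
      rw [h5] at hm
      simp at hm
    · rw [if_pos h4, if_neg (by omega)] at hm
      simp at hm
    · rw [if_neg (by omega), if_pos h4] at hm
      simp at hm
  have h4 : aeval (phi y i) S = aeval (phi y i) (homogeneousComponent d S) +
      aeval (phi y i) (homogeneousComponent (d + 1) S) + aeval (phi y i)
        (S - homogeneousComponent d S - homogeneousComponent (d + 1) S) := by
    rw [← map_add, ← map_add]
    congr 1
    ring
  have e1 : p * d + q * r = p * (d + 1) := by rw [hr]; ring
  rw [e1] at h1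
  have h5 : p * (d + 1) < p * (d + 2) := Nat.mul_lt_mul_of_pos_left (by omega) hp
  rw [h4]
  refine ⟨(h1.1.add h2.1).add (h3.mono h5.le), ?_⟩
  rw [map_add, map_add, h1.2, h2.2, h3 _ h5, add_zero]
  have h6 : (X i : MvPolynomial V ℂ) ^ (d + 1) = X i ^ (d - r) * X i ^ (r + 1) := by
    rw [← pow_add]
    congr 1
    omega
  rw [h6]
  ring

end Pool.Agent.L0h21.ME
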