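import Pool.Agent.L0h21.ME.U2
import Pool.Agent.L0h21.ME.U3

/-! Linear coordinates; the period at a deep point of the tangent cone. -/

set_option autoImplicit false
set_option linter.unusedSectionVars false

namespace Pool.Agent.L0h21.ME

open MvPolynomial Pool.Agent.L0h21.RW Pool.Agent.L0h21.MD
open Pool.Agent.L0h21.SN hiding lin
open Pool.Agent.N138.SV (Per)

variable {V : Type} [Fintype V] [DecidableEq V]

/-- Linear coordinates, with `x_i` fixed. -/
noncomputable def LB (i : V) (T : Matrix {v : V // v ≠ i} {v : V // v ≠ i} ℂ) (v : V) :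
    MvPolynomial V ℂ :=
  if h : v = i then X i else ∑ u, C (T ⟨v, h⟩ u) * X u.1

theorem LB_i (i : V) (T : Matrix {v : V // v ≠ i} {v : V // v ≠ i} ℂ) : LB i T i = X i := by
  unfold LB
  rw [dif_pos rfl]

theorem LB_ne (i : V) (T : Matrix {v : V // v ≠ i} {v : V // v ≠ i} ℂ) (v : {v : V // v ≠ i}) :
    LB i T v.1 = ∑ u, C (T v u) * X u.1 := by
  unfold LB
  rw [dif_neg v.2]

theorem aeval_LB (i : V) (T T' : Matrix {v : V // v ≠ i} {v : V // v ≠ i} ℂ) (v : V) :
    aeval (LB i T) (LB i T' v) = LB i (T' * T) v := by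
  by_cases h : v = i
  · subst h
    rw [LB_i, LB_i, aeval_X, LB_i]
  · have h1 := LB_ne i T' ⟨v, h⟩
    have h2 := LB_ne i (T' * T) ⟨v, h⟩
    simp only at h1 h2
    rw [h1, h2, map_sum]
    have h3 : ∀ w : {v : V // v ≠ i}, aeval (LB i T) (C (T' ⟨v, h⟩ w) * X w.1) =
        ∑ u, C (T' ⟨v, h⟩ w * T w u) * X u.1 := by
      intro w
      rw [map_mul, aeval_C, aeval_X, LB_ne, algebraMap_eq, Finset.mul_sum]
      refine Finset.sum_congr rfl fun u _ => ?_
      rw [C_mul]
      ring
    rw [Finset.sum_congr rfl fun w _ => h3 w, Finset.sum_comm]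
    refine Finset.sum_congr rfl fun u _ => ?_
    rw [Matrix.mul_apply, map_sum, Finset.sum_mul]

theorem LB_one (i v : V) : LB i 1 v = X v := by
  by_cases h : v = i
  · subst h
    rw [LB_i]
  · have h1 := LB_ne i 1 ⟨v, h⟩
    simp only at h1
    rw [h1, Finset.sum_eq_single ⟨v, h⟩]
    · rw [Matrix.one_apply_eq, C_1, one_mul]
    · intro u _ hu
      rw [Matrix.one_apply_ne (Ne.symm hu), C_0, zero_mul]
    · intro h2
      exact absurd (Finset.mem_univ _) h2

theorem LB_hom (p q : ℕ) (i : V) (T : Matrix {v : V // v ≠ i} {v : V // v ≠ i} ℂ) (v : V) :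
    IsWeightedHomogeneous (wp p q i) (LB i T v) (wp p q i v) := by
  by_cases h : v = i
  · subst h
    rw [LB_i]
    exact isWeightedHomogeneous_X ℂ _ _
  · have h1 := LB_ne i T ⟨v, h⟩
    simp only at h1
    rw [h1]
    refine IsWeightedHomogeneous.sum _ _ _ fun u _ => ?_
    have h2 := (isWeightedHomogeneous_C (wp p q i) (T ⟨v, h⟩ u)).mul
      (isWeightedHomogeneous_X ℂ (wp p q i) u.1)
    rw [zero_add] at h2
    have h3 : wp p q i u.1 = wp p q i v := by
      unfold wp
      rw [if_neg u.2, if_neg h]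
    rwa [h3] at h2

/-- Graded substitutions. -/
theorem whc_aeval (w : V → ℕ) (B : V → MvPolynomial V ℂ)
    (hB : ∀ v, IsWeightedHomogeneous w (B v) (w v)) (e : ℕ) (f : MvPolynomial V ℂ) :
    weightedHomogeneousComponent w e (aeval B f) =
      aeval B (weightedHomogeneousComponent w e f) := by
  classical
  induction f using MvPolynomial.induction_on' with
  | monomial m a =>
    have h1 : IsWeightedHomogeneous w (aeval B (monomial m a)) (Finsupp.weight w m) := by
      rw [aeval_monomial, Finsupp.prod_fintype _ _ (by simp)]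
      have h2 : IsWeightedHomogeneous w (∏ v, B v ^ m v) (∑ v, m v • w v) :=
        IsWeightedHomogeneous.prod _ _ _ fun v _ => (hB v).pow (m v)
      have h3 := (isWeightedHomogeneous_C w a).mul h2
      rw [zero_add] at h3
      rw [Finsupp.weight_apply, Finsupp.sum_fintype _ _ (by simp)]
      exact h3
    have h4 : IsWeightedHomogeneous w (monomial m a) (Finsupp.weight w m) :=
      isWeightedHomogeneous_monomial w m a rfl
    by_cases he : Finsupp.weight w m = e
    · rw [he] at h1 h4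
      rw [h1.weightedHomogeneousComponent_same, h4.weightedHomogeneousComponent_same]
    · rw [h1.weightedHomogeneousComponent_ne e (Ne.symm he),
        h4.weightedHomogeneousComponent_ne e (Ne.symm he), map_zero]
  | add p q hp hq => rw [map_add, map_add, map_add, map_add, hp, hq]

theorem LowC_aeval {w : V → ℕ} {B : V → MvPolynomial V ℂ}
    (hB : ∀ v, IsWeightedHomogeneous w (B v) (w v)) {e : ℕ} {f g : MvPolynomial V ℂ}
    (h : LowC w e f g) : LowC w e (aeval B f) (aeval B g) := by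
  refine ⟨fun a ha => ?_, ?_⟩
  · rw [whc_aeval w B hB, h.1 a ha, map_zero]
  · rw [whc_aeval w B hB, h.2]

theorem aeval_inv {φ ψ : V → MvPolynomial V ℂ} (h : ∀ v, aeval ψ (φ v) = X v)
    (f : MvPolynomial V ℂ) : aeval ψ (aeval φ f) = f := by
  have h4 : (aeval ψ : MvPolynomial V ℂ →ₐ[ℂ] _).comp (aeval φ) = AlgHom.id ℂ _ := by
    ext v : 1
    rw [AlgHom.comp_apply, aeval_X, h]
    rfl
  exact DFunLike.congr_fun h4 f

/-- The gradients in the directions `v ≠ i` are independent. -/
theorem indep_off {K : Type} [Fintype K] (y : V → ℂ) (i : V) (hi : y i ≠ 0)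
    (g : K → MvPolynomial V ℂ) (e : K → ℕ) (hg : ∀ j, (g j).IsHomogeneous (e j))
    (hnc : NormalCrossingsAt g y) :
    LinearIndependent ℂ fun (k : {k : K // eval y (g k) = 0}) (v : {v : V // v ≠ i}) =>
      eval y (pderiv v.1 (g k.1)) := by
  classical
  rw [Fintype.linearIndependent_iff]
  intro a ha
  refine (Fintype.linearIndependent_iff.1 hnc) a ?_
  have h0 : ∀ v, v ≠ i → ∑ k : {k : K // eval y (g k) = 0}, a k * eval y (pderiv v (g k.1)) = 0 := by
    intro v hv
    have := congrFun ha ⟨v, hv⟩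
    rw [Finset.sum_apply] at this
    simpa using this
  funext v
  rw [Finset.sum_apply]
  simp only [Pi.smul_apply, smul_eq_mul, Pi.zero_apply]
  by_cases hv : v = i
  · subst hv
    have h1 : ∑ u, y u * ∑ k : {k : K // eval y (g k) = 0}, a k * eval y (pderiv u (g k.1)) = 0 := by
      have h2 : ∀ u, y u * ∑ k : {k : K // eval y (g k) = 0}, a k * eval y (pderiv u (g k.1)) =
          ∑ k : {k : K // eval y (g k) = 0}, a k * (y u * eval y (pderiv u (g k.1))) := by
        intro u
        rw [Finset.mul_sum]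
        exact Finset.sum_congr rfl fun k _ => by ring
      rw [Finset.sum_congr rfl fun u _ => h2 u, Finset.sum_comm]
      refine Finset.sum_eq_zero fun k _ => ?_
      rw [← Finset.mul_sum, euler y (g k.1) (e k.1) (hg k.1), k.2, mul_zero, mul_zero]
    rw [Finset.sum_eq_single v (fun u _ hu => by rw [h0 u hu, mul_zero])
      (fun h => absurd (Finset.mem_univ _) h)] at h1
    exact (mul_eq_zero.1 h1).resolve_left hi
  · exact h0 v hv

/-- The exponent is not an integer. -/
theorem nonint (n a M : ℕ) (hn : 3 ≤ n) (hM : 0 < M) (ha : a ≠ M) (e0 : ℂ)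
    (he : e0 * (a + n * M) = -(n + 1)) (m : ℕ) (z : ℤ) : (M : ℂ) * (e0 - m) ≠ z := by
  intro h
  have h1 : ((z + M * m : ℤ) : ℂ) * ((a + n * M : ℤ) : ℂ) = ((-(M * (n + 1)) : ℤ) : ℂ) := by
    push_cast
    linear_combination (M : ℂ) * he - h * (a + n * M)
  have h2 : (z + M * m) * (a + n * M : ℤ) = -(M * (n + 1)) := by exact_mod_cast h1
  obtain ⟨u, hu⟩ : ∃ u : ℤ, u = -(z + M * m) := ⟨_, rfl⟩
  have h3 : u * (a + n * M : ℤ) = M * (n + 1) := by
    rw [hu]
    linear_combination -h2
  have hM' : (0 : ℤ) < M := by exact_mod_cast hM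
  have hn' : (3 : ℤ) ≤ n := by exact_mod_cast hn
  have ha0 : (0 : ℤ) ≤ a := by positivity
  rcases lt_trichotomy u 1 with h4 | h4 | h4
  · have h5 : u ≤ 0 := by omega
    nlinarith [mul_pos hM' (show (0 : ℤ) < n + 1 by omega), mul_pos hM' (show (0 : ℤ) < n by omega)]
  · rw [h4, one_mul] at h3
    apply ha
    have : (a : ℤ) = M := by linear_combination h3
    exact_mod_cast this
  · have h5 : 2 ≤ u := by omega
    nlinarith [mul_pos hM' (show (0 : ℤ) < n + 1 by omega), mul_pos hM' (show (0 : ℤ) < n by omega),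
      mul_nonneg (show (0 : ℤ) ≤ u - 2 by omega) (show (0 : ℤ) ≤ a + n * M by positivity)]

/-- **The period.** -/
theorem per_deep {K : Type} [Fintype K] (h3 : 3 ≤ Fintype.card V) (P y : V → ℂ) (i : V)
    (hi : y i ≠ 0) (F : MvPolynomial V ℂ) (g : K → MvPolynomial V ℂ) (e : K → ℕ)
    (hg : ∀ j, (g j).IsHomogeneous (e j)) (hnc : NormalCrossingsAt g y)
    (hcard : Nat.card {k : K // eval y (g k) = 0} + 1 = Fintype.card V)
    (c κ δ : ℂ) (hc : c ≠ 0) (hκ : κ ≠ 0) (hδ : δ ≠ 0) (a M : ℕ) (hM : 0 < M) (ha : a ≠ M)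
    (A : Finset K) (hA : ∀ k, k ∈ A ↔ eval y (g k) = 0)
    (hlow : LowC (wp (Fintype.card V - 1) 1 i) ((Fintype.card V - 1) * (a + Fintype.card V * M))
      (aeval (phi y i) (shift P F))
      (C c * (X i ^ a * (C κ * ∏ k ∈ A, lin y i (g k) + C δ * X i ^ Fintype.card V) ^ M))) :
    Per F (-((Fintype.card V + 1 : ℕ) : ℂ) / ((a + Fintype.card V * M : ℕ) : ℂ)) := by
  classical
  set n := Fintype.card V with hn
  set e0 : ℂ := -((n + 1 : ℕ) : ℂ) / ((a + n * M : ℕ) : ℂ) with he0
  have hD : ((a + n * M : ℕ) : ℂ) ≠ 0 := by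
    have : 0 < n * M := Nat.mul_pos (by omega) hM
    exact_mod_cast (show a + n * M ≠ 0 by omega)
  have he : e0 * (a + n * M) = -(n + 1) := by
    rw [he0]
    push_cast at hD ⊢
    field_simp
  have hni := nonint n a M h3 hM ha e0 he
  -- the matrix
  have hindep := indep_off y i hi g e hg hnc
  have hcV : Fintype.card {v : V // v ≠ i} = n - 1 := by
    have h := Fintype.card_subtype_compl (fun v : V => v = i)
    rw [Fintype.card_subtype_eq] at h
    exact h
  have hcA : Fintype.card {k : K // eval y (g k) = 0} = Fintype.card {v : V // v ≠ i} := by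
    rw [hcV, ← Nat.card_eq_fintype_card]
    omega
  obtain ⟨σ⟩ : Nonempty ({k : K // eval y (g k) = 0} ≃ {v : V // v ≠ i}) :=
    ⟨Fintype.equivOfCardEq hcA⟩
  let M0 : Matrix {v : V // v ≠ i} {v : V // v ≠ i} ℂ := fun u v =>
    eval y (pderiv v.1 (g (σ.symm u).1))
  have hM0 : IsUnit M0 := by
    rw [← Matrix.linearIndependent_rows_iff_isUnit]
    exact hindep.comp σ.symm σ.symm.injective
  obtain ⟨Mi, hMi1, hMi2⟩ : ∃ Mi, M0 * Mi = 1 ∧ Mi * M0 = 1 := by
    obtain ⟨U, hU⟩ := hM0
    refine ⟨(U⁻¹ : (Matrix {v : V // v ≠ i} {v : V // v ≠ i} ℂ)ˣ), ?_, ?_⟩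
    · rw [← hU]
      exact Units.mul_inv U
    · rw [← hU]
      exact Units.inv_mul U
  obtain ⟨v0, hv0⟩ : ∃ v0 : V, v0 ≠ i := by
    have : 0 < Fintype.card {v : V // v ≠ i} := by rw [hcV]; omega
    obtain ⟨v⟩ := Fintype.card_pos_iff.1 this
    exact ⟨v.1, v.2⟩
  let s : {v : V // v ≠ i} → ℂ := fun u => if u = ⟨v0, hv0⟩ then δ / κ else 1
  have hs0 : ∀ u, s u ≠ 0 := by
    intro u
    simp only [s]
    split_ifs
    · exact div_ne_zero hδ hκ
    · exact one_ne_zero
  have hsp : ∏ u, s u = δ / κ := by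
    simp only [s]
    rw [Finset.prod_ite_eq' Finset.univ (⟨v0, hv0⟩ : {v : V // v ≠ i}), if_pos (Finset.mem_univ _)]
  set T : Matrix {v : V // v ≠ i} {v : V // v ≠ i} ℂ := Mi * Matrix.diagonal s with hT
  set T' : Matrix {v : V // v ≠ i} {v : V // v ≠ i} ℂ := Matrix.diagonal (fun u => (s u)⁻¹) * M0
    with hT'
  have hd1 : Matrix.diagonal s * Matrix.diagonal (fun u => (s u)⁻¹) = 1 := by
    rw [Matrix.diagonal_mul_diagonal, ← Matrix.diagonal_one]
    congr 1
    funext u
    exact mul_inv_cancel₀ (hs0 u)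
  have hd2 : Matrix.diagonal (fun u => (s u)⁻¹) * Matrix.diagonal s = 1 := by
    rw [Matrix.diagonal_mul_diagonal, ← Matrix.diagonal_one]
    congr 1
    funext u
    exact inv_mul_cancel₀ (hs0 u)
  have hTT' : T * T' = 1 := by
    rw [hT, hT', Matrix.mul_assoc, ← Matrix.mul_assoc (Matrix.diagonal s), hd1, Matrix.one_mul, hMi2]
  have hT'T : T' * T = 1 := by
    rw [hT, hT', Matrix.mul_assoc, ← Matrix.mul_assoc M0, hMi1, Matrix.one_mul, hd2]
  -- the images of the linear forms
  have hlin : ∀ k : {k : K // eval y (g k) = 0}, aeval (LB i T) (lin y i (g k.1)) =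
      C (s (σ k)) * X (σ k).1 := by
    intro k
    have h4 : lin y i (g k.1) = LB i M0 (σ k).1 := by
      rw [LB_ne, lin, Finset.sum_subtype (Finset.univ.erase i) (p := fun v => v ≠ i)
        (fun v => by simp)]
      refine Finset.sum_congr rfl fun u _ => ?_
      simp only [M0]
      rw [Equiv.symm_apply_apply]
    have h5 : M0 * T = Matrix.diagonal s := by
      rw [hT, ← Matrix.mul_assoc, hMi1, Matrix.one_mul]
    rw [h4, aeval_LB, h5, LB_ne, Finset.sum_eq_single (σ k)]
    · rw [Matrix.diagonal_apply_eq]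
    · intro u _ hu
      rw [Matrix.diagonal_apply_ne _ (Ne.symm hu), C_0, zero_mul]
    · intro h
      exact absurd (Finset.mem_univ _) h
  have hprod : aeval (LB i T) (∏ k ∈ A, lin y i (g k)) =
      C (δ / κ) * monomial (ones i) 1 := by
    rw [map_prod, Finset.prod_subtype A (p := fun k => eval y (g k) = 0) hA,
      Finset.prod_congr rfl fun k _ => hlin k, Finset.prod_mul_distrib]
    congr 1
    · rw [← hsp, map_prod, ← Equiv.prod_comp σ]
    · rw [Equiv.prod_comp σ (fun u => (X u.1 : MvPolynomial V ℂ)),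
        ← Finset.prod_subtype (Finset.univ.erase i) (p := fun v => v ≠ i) (fun v => by simp)
          (fun v => (X v : MvPolynomial V ℂ)), monomial_eq, C_1, one_mul,
        Finsupp.prod_fintype _ _ (by simp), ← Finset.mul_prod_erase _ _ (Finset.mem_univ i),
        ones_apply, if_pos rfl, pow_zero, one_mul]
      refine Finset.prod_congr rfl fun v hv => ?_
      rw [ones_apply, if_neg (Finset.ne_of_mem_erase hv), pow_one]
  have hGG : aeval (LB i T) (C c * (X i ^ a * (C κ * ∏ k ∈ A, lin y i (g k) +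
      C δ * X i ^ n) ^ M)) = GG i (c * δ ^ M) a M := by
    have h4 : aeval (LB i T) (C κ * ∏ k ∈ A, lin y i (g k) + C δ * X i ^ n) = C δ * Hh i n := by
      rw [map_add, map_mul, map_mul, hprod, aeval_C, aeval_C, map_pow, aeval_X, LB_i, Hh,
        algebraMap_eq, ← mul_assoc, ← C_mul, mul_div_cancel₀ _ hκ, X_pow_eq_monomial]
      ring
    rw [map_mul, map_mul, map_pow, map_pow, h4, aeval_C, aeval_X, LB_i, GG, algebraMap_eq,
      mul_pow, ← hn, ← X_pow_eq_monomial, C_mul, C_pow]
    ring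
  have hw : wn i = wp (n - 1) 1 i := by
    funext v
    unfold wn wp
    split_ifs
    · rfl
    · omega
  have hl2 := LowC_aeval (LB_hom (n - 1) 1 i T) hlow
  rw [hGG, ← hw] at hl2
  have hHP := hp_GG hv0 h3 (c * δ ^ M) (mul_ne_zero hc (pow_ne_zero _ hδ)) a M hM e0 hni he
  have hdpos : 0 < (n - 1) * (a + n * M) := by
    have : 0 < n * M := Nat.mul_pos (by omega) hM
    exact Nat.mul_pos (by omega) (by omega)
  have h1 : Per (aeval (LB i T) (aeval (phi y i) (shift P F))) e0 := by
    refine to_per (Pool.Agent.L0h47.RW.t (wn i) _ _ _ _ hdpos hl2.1 hl2.2 (fun he1 => ?_) hHP)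
    exfalso
    apply hni 0 (-(M : ℤ))
    rw [he1]
    push_cast
    ring
  have h2 := per_aut (LB i T') (LB i T) (fun v => by rw [aeval_LB, hTT', LB_one])
    (fun v => by rw [aeval_LB, hT'T, LB_one]) h1
  rw [aeval_inv (fun v => by rw [aeval_LB, hTT', LB_one])] at h2
  obtain ⟨ha1, ha2⟩ := isAut_aff P y i hi
  have h4 : aeval (phi y i) (shift P F) = aeval (aff P y i) F := by
    rw [← shift_aff]
    unfold shift
    have : (fun v => C ((0 : V → ℂ) v) + X v : V → MvPolynomial V ℂ) = X := by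
      funext v
      rw [Pi.zero_apply, C_0, zero_add]
    rw [this, aeval_X_left_apply]
  rw [h4] at h2
  have h5 := per_aut (affI P y i) (aff P y i) ha2 ha1 h2
  rwa [aeval_inv ha2] at h5

end Pool.Agent.L0h21.ME
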