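import Pool.Agent.L0h21.ME.U4
import Pool.Agent.L0h21.ME.Def2

/-! The divisors over a point at which the tangent cones cross normally, in all dimensions. -/

set_option autoImplicit false
set_option linter.unusedSectionVars false

namespace Pool.Agent.L0h21.ME

open MvPolynomial Pool.Agent.L0h21.RW Pool.Agent.L0h21.MD
open Pool.Agent.L0h21.SN hiding lin
open Pool.Agent.N138.SV (Per)

variable {V : Type} [Fintype V] [DecidableEq V] {J : Type} [Fintype J] {K : Type} [Fintype K]

theorem degsV (P : V → ℂ) (f : MvPolynomial V ℂ)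
    (d : ℕ) (g : K → MvPolynomial V ℂ) (e : K → ℕ) (hg : ∀ j, (g j).IsHomogeneous (e j))
    (c : ℂ) (hc : c ≠ 0) (U : Finset K)
    (hcone : homogeneousComponent d (shift P f) = C c * ∏ j ∈ U, g j)
    (hne : ∀ k, g k ≠ 0) : d = ∑ k ∈ U, e k := by
  have hG := homogeneousComponent_isHomogeneous d (shift P f)
  have hprod : (C c * ∏ j ∈ U, g j).IsHomogeneous (∑ j ∈ U, e j) := by
    have h1 : (∏ j ∈ U, g j).IsHomogeneous (∑ j ∈ U, e j) := IsHomogeneous.prod _ _ _ fun j _ => hg j
    exact h1.C_mul c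
  rw [hcone] at hG
  exact hG.inj_right hprod (mul_ne_zero (C_ne_zero.2 hc) (Finset.prod_ne_zero_iff.2 fun j _ =>
    hne j))

/-- **The divisors over the deep points of the tangent cones.** -/
theorem per_two (h3 : 3 ≤ Fintype.card V) (f : J → MvPolynomial V ℂ) (P : V → ℂ) (d : J → ℕ)
    (π : K → J) (g : K → MvPolynomial V ℂ) (H : HasCrossingCones f P d π g) (m : J → ℕ)
    (hm : ∀ j, 0 < m j) (c : ℂ) (hc : c ≠ 0) (j0 : J)
    (y : V → ℂ) (hy : IsDeepPoint f P d π g j0 y)
    (hNm : ∑ j, m j * d j ≠ Fintype.card V * m j0) :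
    Per (C c * ∏ j, f j ^ m j)
      (-((Fintype.card V + 1 : ℕ) : ℂ) / ((∑ j, m j * d j + m j0 : ℕ) : ℂ)) := by
  classical
  obtain ⟨Hlow, ⟨cc, hcc, hcone⟩, hg', hnc⟩ := H
  choose e hg using hg'
  obtain ⟨hy0, hyj, hycard, hynext⟩ := hy
  have hcone' : ∀ j, homogeneousComponent (d j) (shift P (f j)) =
      C (cc j) * ∏ k ∈ Finset.univ.filter (fun k => π k = j), g k := by
    intro j
    rw [hcone j]
  have hncy := hnc y hy0
  have hne : ∀ k, g k ≠ 0 := by
    intro k h0
    have h1 : eval y (g k) = 0 := by rw [h0, map_zero]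
    apply hncy.ne_zero ⟨k, h1⟩
    funext v
    change eval _ (pderiv v (g k)) = 0
    rw [h0, map_zero, map_zero]
  have hpos : ∀ j, eval y (g j) = 0 → e j = (e j - 1) + 1 := by
    intro j hj
    rcases Nat.eq_zero_or_pos (e j) with h0 | h0
    · exfalso
      have h1 := hg j
      rw [h0] at h1
      have h2 : g j = C (coeff 0 (g j)) := totalDegree_eq_zero_iff_eq_C.1 (by
        have := h1.totalDegree_le
        omega)
      rw [h2, eval_C] at hj
      have h3 := hncy.ne_zero ⟨j, by rw [h2, eval_C]; exact hj⟩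
      apply h3
      funext v
      change eval y (pderiv v (g j)) = 0
      rw [h2, pderiv_C, map_zero]
    · omega
  obtain ⟨i, hi⟩ : ∃ i, y i ≠ 0 := by
    by_contra h
    push Not at h
    exact hy0 (funext h)
  set U := Finset.univ.filter (fun k => π k = j0) with hU
  set A := Finset.univ.filter (fun k => eval y (g k) = 0) with hA
  have hAmem : ∀ k, k ∈ A ↔ eval y (g k) = 0 := by
    intro k
    rw [hA, Finset.mem_filter]
    exact ⟨fun h => h.2, fun h => ⟨Finset.mem_univ _, h⟩⟩
  have hAU : A ⊆ U := by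
    intro k hk
    exact Finset.mem_filter.2 ⟨Finset.mem_univ _, hyj k ((hAmem k).1 hk)⟩
  have hAc : A.card = Fintype.card V - 1 := by
    have h1 : A.card = Nat.card {k : K // eval y (g k) = 0} := by
      rw [Nat.card_eq_fintype_card, Fintype.card_subtype]
    omega
  have hd0 := degsV P (f j0) (d j0) g e hg (cc j0) (hcc j0) _ (hcone' j0) hne
  set κ := cc j0 * ∏ j ∈ U \ A, eval y (g j) with hκ
  have hκ0 : κ ≠ 0 := by
    refine mul_ne_zero (hcc j0) (Finset.prod_ne_zero_iff.2 fun j hj => ?_)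
    intro h0
    exact (Finset.mem_sdiff.1 hj).2 ((hAmem j).2 h0)
  set δ := eval y (homogeneousComponent (d j0 + 1) (shift P (f j0))) with hδ
  have hp : 0 < Fintype.card V - 1 := by omega
  obtain ⟨hrd, hlc⟩ := low_coneP (p := Fintype.card V - 1) one_pos y i g e hg (cc j0) U A hAU
    (fun k hk => (hAmem k).1 hk) (fun k => e k - 1) (fun k hk => hpos k ((hAmem k).1 hk)) (d j0) hd0
  rw [← hcone' j0, ← hκ] at hlc
  have hl0 := low_nodeP hp one_pos P y i (f j0) (d j0) A.card (Hlow j0) κ
    (∏ k ∈ A, lin y i (g k)) hrd (by rw [one_mul, hAc]) hlc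
  rw [hAc, show Fintype.card V - 1 + 1 = Fintype.card V by omega, ← hδ] at hl0
  set G : J → ℂ := fun l => eval y (homogeneousComponent (d l) (shift P (f l))) with hG
  have hG0 : ∀ l, l ≠ j0 → G l ≠ 0 := by
    intro l hl
    change eval y _ ≠ 0
    rw [hcone' l, map_mul, eval_C, map_prod]
    refine mul_ne_zero (hcc l) (Finset.prod_ne_zero_iff.2 fun k hk => ?_)
    have hk' := (Finset.mem_filter.1 hk).2
    intro h0
    exact hl (hk'.symm.trans (hyj k h0))
  have hrest : LowC (wp (Fintype.card V - 1) 1 i)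
      (∑ l ∈ Finset.univ.erase j0, m l * ((Fintype.card V - 1) * d l))
      (∏ l ∈ Finset.univ.erase j0, (aeval (phi y i) (shift P (f l))) ^ m l)
      (∏ l ∈ Finset.univ.erase j0, (C (G l) * X i ^ d l) ^ m l) :=
    LowC.prod _ fun l _ => (low_otherP hp one_pos P y i (f l) (d l) (Hlow l)).pow (m l)
  have hall := (LowC.C (w := wp (Fintype.card V - 1) 1 i) c).mul ((hl0.pow (m j0)).mul hrest)
  have hrd' : Fintype.card V - 1 ≤ d j0 := by rw [← hAc]; exact hrd
  set a := (d j0 - (Fintype.card V - 1)) * m j0 + ∑ l ∈ Finset.univ.erase j0, m l * d l with ha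
  have hsplit : ∑ j, m j * d j = m j0 * d j0 + ∑ l ∈ Finset.univ.erase j0, m l * d l := by
    rw [← Finset.sum_erase_add _ _ (Finset.mem_univ j0), add_comm]
  have hda : (d j0 - (Fintype.card V - 1)) * m j0 + (Fintype.card V - 1) * m j0 = m j0 * d j0 := by
    rw [← add_mul, Nat.sub_add_cancel hrd', mul_comm]
  have hcM : Fintype.card V * m j0 = (Fintype.card V - 1) * m j0 + m j0 := by
    conv_lhs => rw [show Fintype.card V = Fintype.card V - 1 + 1 by omega]
    ring
  have haN : a + Fintype.card V * m j0 = ∑ j, m j * d j + m j0 := by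
    rw [hsplit, ha, hcM, ← hda]
    ring
  have haM : a ≠ m j0 := by
    intro h
    apply hNm
    omega
  have hfin := per_deep h3 P y i hi (C c * ∏ j, f j ^ m j) g e hg hncy hycard
    (c * ∏ l ∈ Finset.univ.erase j0, G l ^ m l) κ δ
    (mul_ne_zero hc (Finset.prod_ne_zero_iff.2 fun l hl =>
      pow_ne_zero _ (hG0 l (Finset.ne_of_mem_erase hl)))) hκ0 hynext a (m j0) (hm j0) haM A hAmem ?_
  · rwa [haN] at hfin
  · have e1 : 0 + (m j0 * ((Fintype.card V - 1) * (d j0 + 1)) +
        ∑ l ∈ Finset.univ.erase j0, m l * ((Fintype.card V - 1) * d l)) =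
        (Fintype.card V - 1) * (a + Fintype.card V * m j0) := by
      rw [haN, hsplit, zero_add, Finset.sum_congr rfl fun l _ =>
        show m l * ((Fintype.card V - 1) * d l) = (Fintype.card V - 1) * (m l * d l) by ring,
        ← Finset.mul_sum]
      ring
    have e2 : aeval (phi y i) (shift P (C c * ∏ j, f j ^ m j)) =
        C c * (aeval (phi y i) (shift P (f j0)) ^ m j0 *
          ∏ l ∈ Finset.univ.erase j0, (aeval (phi y i) (shift P (f l))) ^ m l) := by
      unfold shift
      rw [← Finset.mul_prod_erase _ _ (Finset.mem_univ j0), map_mul, map_mul, map_mul, map_mul,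
        aeval_C, algebraMap_eq, aeval_C, algebraMap_eq, map_pow, map_pow, map_prod, map_prod]
      simp only [map_pow]
    have e3 : C (c * ∏ l ∈ Finset.univ.erase j0, G l ^ m l) *
        (X i ^ a * (C κ * ∏ k ∈ A, lin y i (g k) + C δ * X i ^ Fintype.card V) ^ m j0) =
        C c * ((X i ^ (d j0 - (Fintype.card V - 1)) *
          (C κ * ∏ k ∈ A, lin y i (g k) + C δ * X i ^ Fintype.card V)) ^ m j0 *
          ∏ l ∈ Finset.univ.erase j0, (C (G l) * X i ^ d l) ^ m l) := by
      have e4 : (C (∏ l ∈ Finset.univ.erase j0, G l ^ m l) : MvPolynomial V ℂ) =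
          ∏ l ∈ Finset.univ.erase j0, C (G l) ^ m l := by
        rw [← Finset.prod_congr rfl fun l _ => C_pow (G l) (m l)]
        exact map_prod C _ _
      simp only [mul_pow]
      rw [Finset.prod_mul_distrib, C_mul, e4, ha, pow_add, ← pow_mul, ← Finset.prod_pow_eq_pow_sum,
        Finset.prod_congr rfl fun l _ => show (X i : MvPolynomial V ℂ) ^ (m l * d l) =
          (X i ^ d l) ^ m l by rw [← pow_mul, mul_comm]]
      ring
    rw [e1, ← e2, ← e3] at hall
    exact hall

/-- **The first divisor.** -/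
theorem cross_oneV (h3 : 3 ≤ Fintype.card V) (f : J → MvPolynomial V ℂ) (P : V → ℂ) (d : J → ℕ)
    (π : K → J) (g : K → MvPolynomial V ℂ) (H : HasCrossingCones f P d π g) (m : J → ℕ)
    (hm : ∀ j, 0 < m j) (c : ℂ) (hc : c ≠ 0) (h0 : ¬ NormalCrossingsAt g 0) :
    IsCrossingDivisor (C c * ∏ j, f j ^ m j) (∑ j, m j * d j) (Fintype.card V) := by
  classical
  obtain ⟨Hlow, ⟨cc, hcc, hcone⟩, hg', hnc⟩ := H
  choose e hg using hg'
  have hcone' : ∀ j, homogeneousComponent (d j) (shift P (f j)) =
      C (cc j) * ∏ k ∈ Finset.univ.filter (fun k => π k = j), g k := by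
    intro j
    rw [hcone j]
  have hX : IsAut (X : V → MvPolynomial V ℂ) X :=
    ⟨fun v => by rw [aeval_X], fun v => by rw [aeval_X]⟩
  have hone : ∀ v ∈ (1 : MvPolynomial V ℂ).vars, (fun _ : V => 1) v = 0 := by
    intro v hv
    rw [← C_1, vars_C] at hv
    exact absurd hv (Finset.notMem_empty v)
  have hl : ∀ j, LowC (fun _ : V => 1) (d j) (shift P (f j))
      (C (cc j) * ∏ k ∈ Finset.univ.filter (fun k => π k = j), g k) :=
    fun j => ⟨Hlow j, hcone' j⟩
  have hall := (LowC.C (w := fun _ : V => 1) c).mul (LowC.prod Finset.univ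
    fun j _ => (hl j).pow (m j))
  obtain ⟨v1, v2, hv12⟩ := Fintype.exists_pair_of_one_lt_card (α := V) (by omega)
  refine ⟨X, X, P, fun _ => 1, K, inferInstance, g, e, fun k => m (π k), c * ∏ j, cc j ^ m j, 1, hX,
    ⟨v1, v2, hv12, one_pos, one_pos⟩, by simp, fun j => hg j, fun _ => hm _,
    mul_ne_zero hc (Finset.prod_ne_zero_iff.2 fun j _ => pow_ne_zero _ (hcc j)), ?_, one_ne_zero,
    hone, ?_⟩
  · have e1 : shift P (aeval X (C c * ∏ j, f j ^ m j)) = C c * ∏ j, shift P (f j) ^ m j := by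
      rw [aeval_X_left_apply]
      unfold shift
      rw [map_mul, map_prod, aeval_C, algebraMap_eq]
      simp only [map_pow]
    have e2 : C (c * ∏ j, cc j ^ m j) * ∏ k, g k ^ m (π k) =
        C c * ∏ j, (C (cc j) * ∏ k ∈ Finset.univ.filter (fun k => π k = j), g k) ^ m j := by
      have e3 : (C (∏ j, cc j ^ m j) : MvPolynomial V ℂ) = ∏ j, C (cc j) ^ m j := by
        rw [← Finset.prod_congr rfl fun l _ => C_pow (cc l) (m l)]
        exact map_prod C _ _
      simp only [mul_pow]
      rw [Finset.prod_mul_distrib, C_mul, e3, mul_assoc]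
      congr 2
      rw [← Finset.prod_fiberwise Finset.univ π (fun k => g k ^ m (π k))]
      refine Finset.prod_congr rfl fun j _ => ?_
      rw [← Finset.prod_pow]
      refine Finset.prod_congr rfl fun k hk => ?_
      rw [(Finset.mem_filter.1 hk).2]
    rw [e1, e2]
    rw [zero_add] at hall
    exact hall
  · intro x _
    constructor
    · intro hx
      by_contra hcon
      push Not at hcon
      apply h0
      have : x = 0 := funext fun v => hcon v one_pos
      rwa [this] at hx
    · rintro ⟨v, -, hv⟩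
      exact hnc x fun h => hv (by rw [h]; rfl)

end Pool.Agent.L0h21.ME
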